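import Pool.Agent.Run7.h376.L2

/-!
# Small functions are almost integer-valued functions in the weak topology
-/

set_option autoImplicit false

namespace Run7.h376

open Filter Topology Metric MeasureTheory Set
open scoped InnerProductSpace ENNReal

theorem intSub_W : ∀ ε > 0, ∃ δ > 0, ∀ u : Lp ℝ 2 unitMeas, ‖u‖ < δ →
    ∀ S : Set (Lp ℝ 2 unitMeas), S.Finite → ∀ η > 0,
      ∃ h ∈ intSub, ‖u + h‖ ≤ ε ∧ ∀ v ∈ S, |⟪v, u + h⟫_ℝ| ≤ η := by
  classical
  intro ε hε
  refine ⟨ε ^ 2 / 3, by positivity, fun u hu S hS η hη => ?_⟩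
  have := hS.fintype
  -- simple functions approximating the test functions
  have hη' : 0 < η / (ε + 1) := by positivity
  have hsim : ∀ v : S, ∃ g : SimpleFunc ℝ ℝ,
      eLpNorm (((v : Lp ℝ 2 unitMeas) : ℝ → ℝ) - ⇑g) 2 unitMeas < ENNReal.ofReal (η / (ε + 1)) ∧
        MemLp g 2 unitMeas := fun v =>
    (Lp.memLp (v : Lp ℝ 2 unitMeas)).exists_simpleFunc_eLpNorm_sub_lt ENNReal.ofNat_ne_top
      (by simpa using hη')
  choose s hs1 hs2 using hsim
  -- the remainder
  let U : ℝ → ℝ := u
  have hU : Measurable U := (Lp.stronglyMeasurable u).measurable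
  let r : ℝ → ℝ := fun t => U t - round (U t)
  have hround : Measurable fun t => ((round (U t) : ℤ) : ℝ) := by
    have h1 : Measurable fun t => ⌊U t + 1 / 2⌋ := (hU.add_const _).floor
    have h2 : (fun t => ((round (U t) : ℤ) : ℝ)) = fun t => ((⌊U t + 1 / 2⌋ : ℤ) : ℝ) := by
      funext t; rw [round_eq]
    rw [h2]
    exact (measurable_from_top (f := fun n : ℤ => (n : ℝ))).comp h1
  have hr : Measurable r := hU.sub hround
  have hr2 : ∀ t, |r t| ≤ 1 / 2 := fun t => abs_sub_round _
  have hrU : ∀ t, |r t| ≤ |U t| := fun t => by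
    have := round_le (U t) 0
    simpa using this
  let fp : ℝ → ℝ := fun t => max (r t) 0
  let fm : ℝ → ℝ := fun t => max (-r t) 0
  have hfp : Measurable fp := hr.max measurable_const
  have hfm : Measurable fm := hr.neg.max measurable_const
  have hfp0 : ∀ t, 0 ≤ fp t := fun t => le_max_right _ _
  have hfm0 : ∀ t, 0 ≤ fm t := fun t => le_max_right _ _
  have hfp1 : ∀ t, fp t ≤ 1 := fun t => max_le (by have := abs_le.mp (hr2 t); linarith) zero_le_one
  have hfm1 : ∀ t, fm t ≤ 1 := fun t => max_le (by have := abs_le.mp (hr2 t); linarith) zero_le_one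
  have hpm : ∀ t, fp t - fm t = r t := by
    intro t
    simp only [fp, fm]
    rcases le_total 0 (r t) with h | h
    · rw [max_eq_left h, max_eq_right (by linarith)]; ring
    · rw [max_eq_right h, max_eq_left (by linarith)]; ring
  have hpm2 : ∀ t, fp t + fm t = |r t| := by
    intro t
    simp only [fp, fm]
    rcases le_total 0 (r t) with h | h
    · rw [max_eq_left h, max_eq_right (by linarith), abs_of_nonneg h]; ring
    · rw [max_eq_right h, max_eq_left (by linarith), abs_of_nonpos h]; ring
  obtain ⟨Cp, hCp, hCp2⟩ := dither fp hfp hfp0 hfp1 (jointSimple s)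
  obtain ⟨Cm, hCm, hCm2⟩ := dither fm hfm hfm0 hfm1 (jointSimple s)
  let ip : ℝ → ℝ := Cp.indicator fun _ => (1 : ℝ)
  let im : ℝ → ℝ := Cm.indicator fun _ => (1 : ℝ)
  have hip : Measurable ip := measurable_const.indicator hCp
  have him : Measurable im := measurable_const.indicator hCm
  have hip01 : ∀ t, ip t = 0 ∨ ip t = 1 := fun t => by
    simp only [ip]; by_cases h : t ∈ Cp <;> simp [h]
  have him01 : ∀ t, im t = 0 ∨ im t = 1 := fun t => by
    simp only [im]; by_cases h : t ∈ Cm <;> simp [h]
  let W : ℝ → ℝ := fun t => (fp t - ip t) - (fm t - im t)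
  have hW : Measurable W := (hfp.sub hip).sub (hfm.sub him)
  have hWr : ∀ t, W t = r t - (ip t - im t) := fun t => by
    simp only [W]; rw [← hpm t]; ring
  have hWb : ∀ t, |W t| ≤ 2 := by
    intro t
    have h1 := abs_le.mp (hr2 t)
    rw [hWr]
    rcases hip01 t with h | h <;> rcases him01 t with h' | h' <;> rw [h, h', abs_le] <;>
      constructor <;> linarith
  have hWmem : MemLp W 2 unitMeas :=
    MemLp.of_bound hW.aestronglyMeasurable 2 (Eventually.of_forall fun t => hWb t)
  set w : Lp ℝ 2 unitMeas := hWmem.toLp W with hw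
  have hwW : w =ᵐ[unitMeas] W := hWmem.coeFn_toLp
  have huw : u + (w - u) = w := by abel
  -- integrability
  have hintp : Integrable fp unitMeas :=
    Integrable.of_bound hfp.aestronglyMeasurable 1 (Eventually.of_forall fun t => by
      rw [Real.norm_of_nonneg (hfp0 t)]; exact hfp1 t)
  have hintm : Integrable fm unitMeas :=
    Integrable.of_bound hfm.aestronglyMeasurable 1 (Eventually.of_forall fun t => by
      rw [Real.norm_of_nonneg (hfm0 t)]; exact hfm1 t)
  have hintip : Integrable ip unitMeas := (integrable_const _).indicator hCp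
  have hintim : Integrable im unitMeas := (integrable_const _).indicator hCm
  have hip_int : ∫ t, ip t ∂unitMeas = ∫ t, fp t ∂unitMeas := by
    have h := hCp2 (fun _ => 1)
    simp only [mul_one] at h
    rw [integral_sub hintp hintip] at h
    linarith
  have him_int : ∫ t, im t ∂unitMeas = ∫ t, fm t ∂unitMeas := by
    have h := hCm2 (fun _ => 1)
    simp only [mul_one] at h
    rw [integral_sub hintm hintim] at h
    linarith
  have hUint : Integrable (fun t => |U t|) unitMeas := by
    have h1 : Integrable U unitMeas := by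
      have := (Lp.memLp u).integrable (by norm_num)
      exact this
    exact h1.abs
  have hrint : Integrable (fun t => |r t|) unitMeas := by
    refine Integrable.of_bound hr.abs.aestronglyMeasurable (1 / 2)
      (Eventually.of_forall fun t => ?_)
    rw [Real.norm_eq_abs, abs_abs]; exact hr2 t
  -- the norm of `w`
  have hwn : ‖w‖ ≤ ε := by
    have h1 : ‖w‖ ^ 2 = ∫ t, W t * W t ∂unitMeas := by
      rw [← real_inner_self_eq_norm_sq, L2.inner_def]
      refine integral_congr_ae ?_
      filter_upwards [hwW] with t ht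
      rw [real_inner_eq, ht]
    have h2 : ∀ t, W t * W t ≤ |r t| + 2 * (ip t + im t) := by
      intro t
      have h3 := abs_le.mp (hr2 t)
      have h4 : |r t| = fp t + fm t := (hpm2 t).symm
      have h5 : r t * r t ≤ |r t| * (1 / 2) := by
        rw [← abs_mul_abs_self]
        exact mul_le_mul_of_nonneg_left (hr2 t) (abs_nonneg _)
      have h6 : -|r t| ≤ r t := neg_abs_le _
      have h7 : r t ≤ |r t| := le_abs_self _
      have h8 : 0 ≤ |r t| := abs_nonneg _
      rw [hWr]
      rcases hip01 t with h | h <;> rcases him01 t with h' | h' <;> rw [h, h'] <;> nlinarith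
    have h3 : ∫ t, W t * W t ∂unitMeas ≤ 3 * ∫ t, |r t| ∂unitMeas := by
      calc ∫ t, W t * W t ∂unitMeas ≤ ∫ t, (|r t| + 2 * (ip t + im t)) ∂unitMeas := by
            refine integral_mono ?_ (hrint.add ((hintip.add hintim).const_mul 2)) h2
            refine Integrable.of_bound (hW.mul hW).aestronglyMeasurable 4
              (Eventually.of_forall fun t => ?_)
            rw [norm_mul]
            have := hWb t
            rw [Real.norm_eq_abs]
            have h0 := abs_nonneg (W t)
            nlinarith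
        _ = ∫ t, |r t| ∂unitMeas + 2 * (∫ t, fp t ∂unitMeas + ∫ t, fm t ∂unitMeas) := by
            have hs2 : Integrable (fun t => 2 * (ip t + im t)) unitMeas :=
              (hintip.add hintim).const_mul 2
            rw [integral_add hrint hs2, integral_const_mul,
              integral_add hintip hintim, hip_int, him_int]
        _ = 3 * ∫ t, |r t| ∂unitMeas := by
            rw [← integral_add hintp hintm]
            simp_rw [hpm2]
            ring
    have h4 : ∫ t, |r t| ∂unitMeas ≤ ∫ t, |U t| ∂unitMeas := integral_mono hrint hUint hrU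
    have h5 : ∫ t, |U t| ∂unitMeas ≤ ‖u‖ := integral_abs_le_norm u
    have h6 : ‖w‖ ^ 2 ≤ ε ^ 2 := by rw [h1]; linarith
    exact (pow_le_pow_iff_left₀ (norm_nonneg _) hε.le two_ne_zero).mp h6
  refine ⟨w - u, ?_, ?_, ?_⟩
  · rw [mem_intSub]
    filter_upwards [hwW, Lp.coeFn_sub w u] with t h1 h2
    rw [h2, Pi.sub_apply, h1, hWr]
    have h3 : r t = U t - round (U t) := rfl
    have h4 : U t = u t := rfl
    rcases hip01 t with h | h <;> rcases him01 t with h' | h'
    · exact ⟨-round (U t), by rw [h, h', h3, ← h4]; push_cast; ring⟩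
    · exact ⟨-round (U t) + 1, by rw [h, h', h3, ← h4]; push_cast; ring⟩
    · exact ⟨-round (U t) - 1, by rw [h, h', h3, ← h4]; push_cast; ring⟩
    · exact ⟨-round (U t), by rw [h, h', h3, ← h4]; push_cast; ring⟩
  · rw [huw]; exact hwn
  · intro v hv
    rw [huw]
    set σ : Lp ℝ 2 unitMeas := (hs2 ⟨v, hv⟩).toLp _ with hσ
    have hσs : σ =ᵐ[unitMeas] s ⟨v, hv⟩ := (hs2 ⟨v, hv⟩).coeFn_toLp
    have h1 : ‖v - σ‖ ≤ η / (ε + 1) := by
      have h2 : v - σ = ((Lp.memLp v).sub (hs2 ⟨v, hv⟩)).toLp _ := by
        rw [MemLp.toLp_sub (Lp.memLp v) (hs2 ⟨v, hv⟩), Lp.toLp_coeFn _ (Lp.memLp v)]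
      rw [h2, Lp.norm_toLp]
      refine ENNReal.toReal_le_of_le_ofReal hη'.le (hs1 ⟨v, hv⟩).le
    have h2 : ⟪σ, w⟫_ℝ = 0 := by
      rw [L2.inner_def]
      have h3 : ∫ t, ⟪σ t, w t⟫_ℝ ∂unitMeas =
          ∫ t, ((fp t - ip t) * s ⟨v, hv⟩ t - (fm t - im t) * s ⟨v, hv⟩ t) ∂unitMeas := by
        refine integral_congr_ae ?_
        filter_upwards [hwW, hσs] with t h4 h5
        rw [real_inner_eq, h4, h5]
        simp only [W]
        ring
      have hsint : Integrable (s ⟨v, hv⟩) unitMeas :=
        SimpleFunc.integrable_of_isFiniteMeasure _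
      have h4 : Integrable (fun t => (fp t - ip t) * s ⟨v, hv⟩ t) unitMeas := by
        refine hsint.bdd_mul (c := 1) (hfp.sub hip).aestronglyMeasurable
          (Eventually.of_forall fun t => ?_)
        have e1 := hfp0 t
        have e2 := hfp1 t
        rw [Real.norm_eq_abs, abs_le]
        rcases hip01 t with h | h <;> rw [h] <;> constructor <;> linarith
      have h5 : Integrable (fun t => (fm t - im t) * s ⟨v, hv⟩ t) unitMeas := by
        refine hsint.bdd_mul (c := 1) (hfm.sub him).aestronglyMeasurable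
          (Eventually.of_forall fun t => ?_)
        have e1 := hfm0 t
        have e2 := hfm1 t
        rw [Real.norm_eq_abs, abs_le]
        rcases him01 t with h | h <;> rw [h] <;> constructor <;> linarith
      rw [h3, integral_sub h4 h5]
      have h6 := hCp2 (fun x => x ⟨v, hv⟩)
      have h7 := hCm2 (fun x => x ⟨v, hv⟩)
      simp only [jointSimple_apply] at h6 h7
      have h8 : ∫ t, (fp t - ip t) * s ⟨v, hv⟩ t ∂unitMeas = 0 := h6
      have h9 : ∫ t, (fm t - im t) * s ⟨v, hv⟩ t ∂unitMeas = 0 := h7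
      rw [h8, h9, sub_zero]
    have h3 : ⟪v, w⟫_ℝ = ⟪v - σ, w⟫_ℝ := by rw [inner_sub_left, h2, sub_zero]
    rw [h3]
    calc |⟪v - σ, w⟫_ℝ| ≤ ‖v - σ‖ * ‖w‖ := abs_real_inner_le_norm _ _
      _ ≤ η / (ε + 1) * ε := mul_le_mul h1 hwn (norm_nonneg _) hη'.le
      _ ≤ η := by
          rw [div_mul_eq_mul_div, div_le_iff₀ (by positivity)]
          nlinarith

end Run7.h376
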