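import Mathlib

/-!
# Quotient groups of Banach spaces with a noncompact operator into a Hilbert space: abstract part
-/

set_option autoImplicit false

namespace Run7.h376

open Filter Topology Metric

/-! ### Selection of sequences -/

theorem exists_seq {α : Type*} (P : ℕ → α → Prop) (r : ℕ → α → α → Prop)
    (h : ∀ (n : ℕ) (s : Set α), s.Finite → ∃ y, P n y ∧ ∀ x ∈ s, r n x y) :
    ∃ f : ℕ → α, ∀ n, P n (f n) ∧ ∀ m < n, r n (f m) (f n) := by
  classical
  have : Nonempty α := ⟨(h 0 ∅ Set.finite_empty).choose⟩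
  choose! F hF using h
  let L : ℕ → Set α := fun n => Nat.rec ∅ (fun n s => insert (F n s) s) n
  have L0 : L 0 = ∅ := rfl
  have LS : ∀ n, L (n + 1) = insert (F n (L n)) (L n) := fun n => rfl
  have Lfin : ∀ n, (L n).Finite := by
    intro n
    induction n with
    | zero => rw [L0]; exact Set.finite_empty
    | succ n ih => rw [LS]; exact ih.insert _
  have Lmem : ∀ n m, m < n → F m (L m) ∈ L n := by
    intro n
    induction n with
    | zero => intro m hm; omega
    | succ n ih =>
      intro m hm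
      rw [LS]
      rcases Nat.lt_succ_iff_lt_or_eq.mp hm with h1 | h1
      · exact Set.mem_insert_of_mem _ (ih m h1)
      · subst h1; exact Set.mem_insert _ _
  refine ⟨fun n => F n (L n), fun n => ⟨(hF n (L n) (Lfin n)).1, fun m hm => ?_⟩⟩
  exact (hF n (L n) (Lfin n)).2 _ (Lmem n m hm)

/-! ### Nearly open homomorphisms are open -/

theorem exists_preimage {E G : Type*} [NormedAddCommGroup E] [CompleteSpace E]
    [NormedAddCommGroup G] (Q : E →+ G) (hQ : Continuous Q) (C : ℝ)
    (δ : ℕ → ℝ) (hδ0 : ∀ n, 0 < δ n) (hδ : Tendsto δ atTop (𝓝 0))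
    (h : ∀ n (g : G), ‖g‖ < δ n → ∀ τ > 0, ∃ y, ‖y‖ ≤ C * (1 / 2) ^ n ∧ ‖g - Q y‖ < τ)
    (n : ℕ) (g : G) (hg : ‖g‖ < δ n) :
    ∃ y, ‖y‖ ≤ 2 * (C * (1 / 2) ^ n) ∧ Q y = g := by
  classical
  -- the sequence of remainders
  have step : ∀ (i : ℕ) (g : G), ‖g‖ < δ i → ∃ y, ‖y‖ ≤ C * (1 / 2) ^ i ∧ ‖g - Q y‖ < δ (i + 1) :=
    fun i g hg => h i g hg _ (hδ0 _)
  choose! Y hY using step
  let r : ℕ → G := fun i => Nat.rec g (fun i s => s - Q (Y (n + i) s)) i
  have r0 : r 0 = g := rfl
  have rS : ∀ i, r (i + 1) = r i - Q (Y (n + i) (r i)) := fun i => rfl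
  have rlt : ∀ i, ‖r i‖ < δ (n + i) := by
    intro i
    induction i with
    | zero => simpa [r0] using hg
    | succ i ih => rw [rS]; exact (hY _ _ ih).2
  let y : ℕ → E := fun i => Y (n + i) (r i)
  have yle : ∀ i, ‖y i‖ ≤ C * (1 / 2) ^ n * (1 / 2) ^ i := by
    intro i
    have := (hY _ _ (rlt i)).1
    calc ‖y i‖ ≤ C * (1 / 2) ^ (n + i) := this
      _ = C * (1 / 2) ^ n * (1 / 2) ^ i := by rw [pow_add]; ring
  have hgeo : HasSum (fun i : ℕ => C * (1 / 2 : ℝ) ^ n * (1 / 2) ^ i) (C * (1 / 2) ^ n * 2) :=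
    hasSum_geometric_two.mul_left _
  have ysum : Summable y := Summable.of_norm_bounded hgeo.summable yle
  have part : ∀ m, Q (∑ i ∈ Finset.range m, y i) = g - r m := by
    intro m
    induction m with
    | zero => simp [r0]
    | succ m ih =>
      rw [Finset.sum_range_succ, map_add, ih, rS]
      simp only [y]
      abel
  refine ⟨∑' i, y i, ?_, ?_⟩
  · calc ‖∑' i, y i‖ ≤ C * (1 / 2) ^ n * 2 := tsum_of_norm_bounded hgeo yle
      _ = 2 * (C * (1 / 2) ^ n) := by ring
  · have h1 : Tendsto (fun m => Q (∑ i ∈ Finset.range m, y i)) atTop (𝓝 (Q (∑' i, y i))) :=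
      (hQ.tendsto _).comp ysum.hasSum.tendsto_sum_nat
    have h2 : Tendsto r atTop (𝓝 0) := by
      rw [tendsto_zero_iff_norm_tendsto_zero]
      refine squeeze_zero (fun _ => norm_nonneg _) (fun i => (rlt i).le) ?_
      exact hδ.comp (tendsto_add_atTop_nat n |>.congr fun i => by simp [add_comm])
    have h3 : Tendsto (fun m => Q (∑ i ∈ Finset.range m, y i)) atTop (𝓝 (g - 0)) := by
      simp_rw [part]
      exact tendsto_const_nhds.sub h2
    rw [sub_zero] at h3
    exact tendsto_nhds_unique h1 h3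

/-! ### The isomorphism induced by an open surjective homomorphism -/

theorem exists_iso {E G : Type*} [AddCommGroup E] [TopologicalSpace E] [IsTopologicalAddGroup E]
    [AddCommGroup G] [TopologicalSpace G] [T1Space G]
    (Q : E →+ G) (hQ : Continuous Q) (hs : Function.Surjective Q) (ho : IsOpenMap Q) :
    ∃ H : AddSubgroup E, IsClosed (H : Set E) ∧ Nonempty ((E ⧸ H) ≃ₜ+ G) := by
  refine ⟨Q.ker, ?_, ?_⟩
  · have : (Q.ker : Set E) = Q ⁻¹' {0} := by
      ext x; simp [AddMonoidHom.mem_ker]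
    rw [this]
    exact isClosed_singleton.preimage hQ
  · let e : (E ⧸ Q.ker) ≃+ G := QuotientAddGroup.quotientKerEquivOfSurjective Q hs
    have hcomp : ∀ x : E, e (QuotientAddGroup.mk x) = Q x := fun x => rfl
    have hcont : Continuous e := by
      refine continuous_quot_lift _ hQ
    have hopen : IsOpenMap e := by
      intro U hU
      have : e '' U = Q '' ((QuotientAddGroup.mk : E → E ⧸ Q.ker) ⁻¹' U) := by
        ext z
        constructor
        · rintro ⟨x, hx, rfl⟩
          obtain ⟨x, rfl⟩ := QuotientAddGroup.mk_surjective x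
          exact ⟨x, hx, rfl⟩
        · rintro ⟨x, hx, rfl⟩
          exact ⟨QuotientAddGroup.mk x, hx, rfl⟩
      rw [this]
      exact ho _ (hU.preimage QuotientAddGroup.continuous_mk)
    exact ⟨{ e with
      continuous_toFun := hcont
      continuous_invFun := by
        have := (e.toEquiv.toHomeomorphOfContinuousOpen hcont hopen).symm.continuous
        exact this }⟩

end Run7.h376
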