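import Pool.Agent.Run7.h376.Simple
import Pool.Agent.Run7.h376.Core

/-!
# Almost biorthogonal systems from uniformly weakly null sequences of functionals
-/

set_option autoImplicit false

namespace Run7.h376

open Filter Topology Metric

section
variable {E : Type*} [NormedAddCommGroup E] [NormedSpace ℝ E]

/-- For each `η > 0` the number of members of the sequence that exceed `η` at a point of the unit
ball is bounded. -/
def UnifNull (f : ℕ → E →L[ℝ] ℝ) : Prop :=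
  ∀ η : ℝ, 0 < η → ∃ m : ℕ, ∀ x : E, ‖x‖ ≤ 1 → ∀ A : Finset ℕ, (∀ n ∈ A, η < |f n x|) → A.card ≤ m

theorem UnifNull.finite {f : ℕ → E →L[ℝ] ℝ} (hu : UnifNull f) (x : E) {η : ℝ} (hη : 0 < η) :
    {n | η < |f n x|}.Finite := by
  by_contra hinf
  obtain ⟨M, hM⟩ := exists_nat_gt ‖x‖
  have hM0 : (0 : ℝ) < M := lt_of_le_of_lt (norm_nonneg _) hM
  have h3 : ‖(M : ℝ)⁻¹ • x‖ ≤ 1 := by
    rw [norm_smul, norm_inv, Real.norm_of_nonneg hM0.le, inv_mul_le_iff₀ hM0, mul_one]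
    exact hM.le
  obtain ⟨m, hm⟩ := hu (η / M) (by positivity)
  obtain ⟨A, hA1, hA2⟩ := Set.Infinite.exists_subset_card_eq hinf (m + 1)
  have := hm _ h3 A (fun n hn => by
    have h4 : η < |f n x| := hA1 hn
    rw [map_smul, smul_eq_mul, abs_mul, abs_inv, abs_of_pos hM0, div_lt_iff₀ hM0]
    rw [mul_comm, ← mul_assoc, mul_inv_cancel₀ hM0.ne', one_mul]
    exact h4)
  omega

theorem UnifNull.eventually {f : ℕ → E →L[ℝ] ℝ} (hu : UnifNull f) (x : E) {η : ℝ} (hη : 0 < η) :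
    ∀ᶠ n in atTop, |f n x| ≤ η := by
  rw [← Nat.cofinite_eq_atTop]
  filter_upwards [(hu.finite x hη).compl_mem_cofinite] with n hn
  exact not_lt.mp hn

theorem UnifNull.bdd [CompleteSpace E] {f : ℕ → E →L[ℝ] ℝ} (hu : UnifNull f) :
    ∃ B, ∀ n, ‖f n‖ ≤ B := by
  refine banach_steinhaus fun x => ?_
  have hfin := hu.finite x one_pos
  refine ⟨1 + ∑ n ∈ hfin.toFinset, |f n x|, fun n => ?_⟩
  rw [Real.norm_eq_abs]
  by_cases hn : 1 < |f n x|
  · have := Finset.single_le_sum (f := fun n => |f n x|) (fun _ _ => abs_nonneg _)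
      (hfin.mem_toFinset.mpr hn)
    linarith
  · have : 0 ≤ ∑ n ∈ hfin.toFinset, |f n x| := Finset.sum_nonneg fun _ _ => abs_nonneg _
    linarith

theorem exists_pair {f : ℕ → E →L[ℝ] ℝ} (hu : UnifNull f) {c₀ : ℝ} (hc₀ : 0 < c₀)
    (hf : ∀ n, c₀ ≤ ‖f n‖) (s : Set (E × ℕ)) (hs : s.Finite) {η : ℝ} (hη : 0 < η) :
    ∃ p : E × ℕ, (‖p.1‖ ≤ 2 ∧ c₀ / 4 ≤ f p.2 p.1) ∧
      ∀ p' ∈ s, |f p.2 p'.1| ≤ η ∧ |f p'.2 p.1| ≤ η := by
  classical
  have hz : ∀ n, ∃ z : E, ‖z‖ ≤ 1 ∧ c₀ / 2 ≤ f n z := by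
    intro n
    obtain ⟨z, hz1, hz2⟩ := (f n).exists_lt_apply_of_lt_opNorm
      (show c₀ / 2 < ‖f n‖ by have := hf n; linarith)
    rw [Real.norm_eq_abs] at hz2
    rcases le_total 0 (f n z) with h | h
    · rw [abs_of_nonneg h] at hz2
      exact ⟨z, hz1.le, hz2.le⟩
    · rw [abs_of_nonpos h] at hz2
      exact ⟨-z, by rw [norm_neg]; exact hz1.le, by rw [map_neg]; exact hz2.le⟩
  choose z hz1 hz2 using hz
  have := hs.fintype
  let Ψ : ℕ → (s → ℝ) := fun n p => f (p : E × ℕ).2 (z n)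
  have hbd : Bornology.IsBounded (Set.range Ψ) := by
    rw [isBounded_iff_forall_norm_le]
    refine ⟨∑ p : s, ‖f (p : E × ℕ).2‖, ?_⟩
    rintro _ ⟨n, rfl⟩
    rw [pi_norm_le_iff_of_nonneg (Finset.sum_nonneg fun _ _ => norm_nonneg _)]
    intro p
    have h3 : ‖Ψ n p‖ ≤ ‖f (p : E × ℕ).2‖ := by
      refine ((f (p : E × ℕ).2).le_opNorm (z n)).trans ?_
      exact mul_le_of_le_one_right (norm_nonneg _) (hz1 n)
    refine h3.trans ?_
    exact Finset.single_le_sum (f := fun p : s => ‖f (p : E × ℕ).2‖)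
      (fun _ _ => norm_nonneg _) (Finset.mem_univ p)
  obtain ⟨a, -, φ, hφ, hlim⟩ := tendsto_subseq_of_bounded hbd (x := Ψ) (fun n => ⟨n, rfl⟩)
  have hev := (Metric.tendsto_atTop.mp hlim) (η / 2) (by positivity)
  obtain ⟨n₁, hn₁⟩ := hev
  have hφt : Tendsto φ atTop atTop := hφ.tendsto_atTop
  have h1 : ∀ᶠ n in atTop, |f (φ n) (z (φ n₁))| ≤ c₀ / 4 :=
    hφt.eventually (hu.eventually (z (φ n₁)) (by positivity))
  have h2 : ∀ᶠ n in atTop, ∀ p' ∈ s, |f (φ n) p'.1| ≤ η := by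
    rw [eventually_all_finite hs]
    intro p' _
    exact hφt.eventually (hu.eventually p'.1 hη)
  obtain ⟨n, hn1, hn2, hn3⟩ := (h1.and (h2.and (eventually_ge_atTop n₁))).exists
  refine ⟨(z (φ n) - z (φ n₁), φ n), ⟨?_, ?_⟩, fun p' hp' => ⟨hn2 p' hp', ?_⟩⟩
  · calc ‖z (φ n) - z (φ n₁)‖ ≤ ‖z (φ n)‖ + ‖z (φ n₁)‖ := norm_sub_le _ _
      _ ≤ 2 := by have := hz1 (φ n); have := hz1 (φ n₁); linarith
  · simp only
    rw [map_sub]
    have h3 := hz2 (φ n)
    have h4 := (abs_le.mp hn1).2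
    linarith
  · have h3 := hn₁ n hn3
    have h4 := hn₁ n₁ le_rfl
    have h5 : dist ((Ψ ∘ φ) n) ((Ψ ∘ φ) n₁) < η := by
      calc dist ((Ψ ∘ φ) n) ((Ψ ∘ φ) n₁) ≤ dist ((Ψ ∘ φ) n) a + dist ((Ψ ∘ φ) n₁) a :=
            dist_triangle_right _ _ _
        _ < η := by linarith
    rw [dist_pi_lt_iff hη] at h5
    have h6 := h5 ⟨p', hp'⟩
    rw [Real.dist_eq] at h6
    simp only
    rw [map_sub]
    exact h6.le

theorem exists_Edata [CompleteSpace E] {f : ℕ → E →L[ℝ] ℝ} (hu : UnifNull f) {c₀ : ℝ}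
    (hc₀ : 0 < c₀) (hf : ∀ n, c₀ ≤ ‖f n‖) :
    ∃ (Q : LSeq) (C : ℝ) (y : ℕ → E) (c : ℕ → E →L[ℝ] ℝ), (∀ k, ‖y k‖ ≤ C) ∧
      (∀ k, c k (y k) = 1) ∧ (∀ j k, j ≠ k →
        |c j (y k)| ≤ (1 / 2) ^ (j + 1) * ((1 / 2) ^ (j + 1) * (1 / 2) ^ (k + 1))) ∧
      ∀ x, ‖x‖ ≤ 1 → KK Q (fun k => c k x) := by
  classical
  obtain ⟨B, hB⟩ := hu.bdd
  have hB0 : 0 < B := hc₀.trans_le ((hf 0).trans (hB 0))
  obtain ⟨p, hp⟩ := exists_seq
    (fun _ (p : E × ℕ) => ‖p.1‖ ≤ 2 ∧ c₀ / 4 ≤ f p.2 p.1)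
    (fun k p' p => |f p.2 p'.1| ≤ (c₀ / 4) * (1 / 8) ^ (k + 1) ∧
      |f p'.2 p.1| ≤ (c₀ / 4) * (1 / 8) ^ (k + 1))
    (fun k s hs => exists_pair hu hc₀ hf s hs (by positivity))
  have hcr : ∀ j k, j ≠ k → |f (p j).2 (p k).1| ≤
      (c₀ / 4) * ((1 / 2) ^ (j + 1) * ((1 / 2) ^ (j + 1) * (1 / 2) ^ (k + 1))) := by
    have h8 : ∀ j : ℕ, (1 / 8 : ℝ) ^ (j + 1) =
        (1 / 2) ^ (j + 1) * ((1 / 2) ^ (j + 1) * (1 / 2) ^ (j + 1)) := by
      intro j; rw [← mul_pow, ← mul_pow]; norm_num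
    have hmono : ∀ j k : ℕ, j < k → (1 / 2 : ℝ) ^ (k + 1) ≤ (1 / 2) ^ (j + 1) := fun j k hjk =>
      pow_le_pow_of_le_one (by norm_num) (by norm_num) (by omega)
    intro j k hjk
    rcases lt_or_gt_of_ne hjk with h | h
    · refine ((hp k).2 j h).2.trans ?_
      rw [h8]
      have := hmono j k h
      gcongr
    · refine ((hp j).2 k h).1.trans ?_
      rw [h8]
      have := hmono k j h
      gcongr
  have hinj : Function.Injective fun k => (p k).2 := by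
    intro j k hjk
    by_contra hne
    simp only at hjk
    have h1 := hcr j k hne
    have h2 := (hp k).1.2
    rw [hjk] at h1
    have h3 := (le_abs_self _).trans h1
    have h4 : (1 / 2 : ℝ) ^ (j + 1) * ((1 / 2) ^ (j + 1) * (1 / 2) ^ (k + 1)) < 1 := by
      have e1 : (1 / 2 : ℝ) ^ (j + 1) ≤ 1 := pow_le_one₀ (by norm_num) (by norm_num)
      have e2 : (1 / 2 : ℝ) ^ (k + 1) < 1 := pow_lt_one₀ (by norm_num) (by norm_num) (by omega)
      have e3 : (0 : ℝ) < (1 / 2) ^ (j + 1) := by positivity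
      have e4 : (0 : ℝ) < (1 / 2) ^ (k + 1) := by positivity
      calc (1 / 2 : ℝ) ^ (j + 1) * ((1 / 2) ^ (j + 1) * (1 / 2) ^ (k + 1))
          ≤ 1 * (1 * (1 / 2) ^ (k + 1)) := by gcongr
        _ < 1 := by linarith
    nlinarith
  -- the parameters
  have hmm : ∀ i : ℕ, ∃ m : ℕ, ∀ x : E, ‖x‖ ≤ 1 → ∀ A : Finset ℕ,
      (∀ n ∈ A, (1 / 4 : ℝ) ^ i / 2 * B < |f n x|) → A.card ≤ m := fun i =>
    hu _ (by positivity)
  choose m hm using hmm
  let Q : LSeq :=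
    { L := fun i => if i = 0 then 1 else max (2 ^ i) (2 * 4 ^ i * m i)
      zero := by simp
      le := by
        intro i
        by_cases hi : i = 0
        · simp [hi]
        · simp only [hi, if_false]; exact le_max_left _ _ }
  have hQ : ∀ i, i ≠ 0 → 2 * 4 ^ i * m i ≤ Q.L i := by
    intro i hi
    simp only [Q, hi, if_false]; exact le_max_right _ _
  let a : ℕ → ℝ := fun k => f (p k).2 (p k).1
  have ha : ∀ k, c₀ / 4 ≤ a k := fun k => (hp k).1.2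
  have ha0 : ∀ k, 0 < a k := fun k => lt_of_lt_of_le (by positivity) (ha k)
  let ρ : ℝ := c₀ / (4 * B)
  have hρ : 0 < ρ := by positivity
  let c : ℕ → E →L[ℝ] ℝ := fun k => (ρ / a k) • f (p k).2
  have hc : ∀ k x, c k x = (ρ / a k) * f (p k).2 x := fun k x => rfl
  have hcabs : ∀ k x, |c k x| ≤ |f (p k).2 x| / B := by
    intro k x
    rw [hc, abs_mul, abs_of_pos (div_pos hρ (ha0 k))]
    have h1 : ρ / a k ≤ 1 / B := by
      rw [div_le_div_iff₀ (ha0 k) hB0]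
      have h2 : ρ * B = c₀ / 4 := by
        simp only [ρ]; field_simp
      rw [h2, one_mul]
      exact ha k
    calc ρ / a k * |f (p k).2 x| ≤ 1 / B * |f (p k).2 x| :=
          mul_le_mul_of_nonneg_right h1 (abs_nonneg _)
      _ = _ := by ring
  refine ⟨Q, ρ⁻¹ * 2, fun k => ρ⁻¹ • (p k).1, c, ?_, ?_, ?_, ?_⟩
  · intro k
    rw [norm_smul, norm_inv, Real.norm_of_nonneg hρ.le]
    exact mul_le_mul_of_nonneg_left (hp k).1.1 (inv_pos.mpr hρ).le
  · intro k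
    rw [hc, map_smul, smul_eq_mul]
    have h1 : f (p k).2 (p k).1 = a k := rfl
    have h2 := (ha0 k).ne'
    rw [h1]
    field_simp
  · intro j k hjk
    rw [hc, map_smul, smul_eq_mul]
    have h1 : ρ / a j * (ρ⁻¹ * f (p j).2 (p k).1) = f (p j).2 (p k).1 / a j := by
      have h2 := (ha0 j).ne'
      field_simp
    rw [h1, abs_div, abs_of_pos (ha0 j), div_le_iff₀ (ha0 j)]
    refine (hcr j k hjk).trans ?_
    rw [mul_comm]
    exact mul_le_mul_of_nonneg_left (ha j) (by positivity)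
  · intro x hx
    have hx1 : ∀ k, |c k x| ≤ 1 := by
      intro k
      refine (hcabs k x).trans ?_
      rw [div_le_one hB0]
      have h1 := (f (p k).2).le_opNorm x
      rw [Real.norm_eq_abs] at h1
      calc |f (p k).2 x| ≤ ‖f (p k).2‖ * ‖x‖ := h1
        _ ≤ B * 1 := mul_le_mul (hB _) hx (norm_nonneg _) hB0.le
        _ = B := mul_one B
    intro i A hA
    rcases eq_or_ne i 0 with hi | hi
    · subst hi
      calc ∑ k ∈ A, |c k x| ≤ ∑ k ∈ A, (1 : ℝ) := Finset.sum_le_sum fun k _ => hx1 k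
        _ = A.card := by simp
        _ ≤ (1 / 4) ^ 0 * Q.L 0 := by
            rw [pow_zero, one_mul]; exact_mod_cast hA
    · let A₁ := A.filter fun k => (1 / 4 : ℝ) ^ i / 2 < |c k x|
      let A₂ := A.filter fun k => ¬ (1 / 4 : ℝ) ^ i / 2 < |c k x|
      have hsplit : ∑ k ∈ A, |c k x| = ∑ k ∈ A₁, |c k x| + ∑ k ∈ A₂, |c k x| :=
        (Finset.sum_filter_add_sum_filter_not A _ _).symm
      have hcard : A₁.card ≤ m i := by
        rw [← Finset.card_image_of_injective A₁ hinj]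
        refine hm i x hx _ ?_
        intro n hn
        obtain ⟨k, hk, rfl⟩ := Finset.mem_image.mp hn
        have h1 := (Finset.mem_filter.mp hk).2
        have h2 := h1.trans_le (hcabs k x)
        rwa [lt_div_iff₀ hB0] at h2
      have h1 : ∑ k ∈ A₁, |c k x| ≤ m i := by
        calc ∑ k ∈ A₁, |c k x| ≤ ∑ k ∈ A₁, (1 : ℝ) := Finset.sum_le_sum fun k _ => hx1 k
          _ = A₁.card := by simp
          _ ≤ m i := by exact_mod_cast hcard
      have h2 : ∑ k ∈ A₂, |c k x| ≤ Q.L i * ((1 / 4) ^ i / 2) := by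
        calc ∑ k ∈ A₂, |c k x| ≤ ∑ k ∈ A₂, ((1 / 4 : ℝ) ^ i / 2) :=
              Finset.sum_le_sum fun k hk => not_lt.mp (Finset.mem_filter.mp hk).2
          _ = A₂.card * ((1 / 4) ^ i / 2) := by rw [Finset.sum_const, nsmul_eq_mul]
          _ ≤ Q.L i * ((1 / 4) ^ i / 2) := by
              refine mul_le_mul_of_nonneg_right ?_ (by positivity)
              have : A₂.card ≤ A.card := Finset.card_filter_le _ _
              exact_mod_cast this.trans hA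
      have h3 : (m i : ℝ) ≤ Q.L i * ((1 / 4) ^ i / 2) := by
        have h4 : ((2 * 4 ^ i * m i : ℕ) : ℝ) ≤ Q.L i := by exact_mod_cast hQ i hi
        push_cast at h4
        have h5 : (0 : ℝ) < (1 / 4) ^ i / 2 := by positivity
        calc (m i : ℝ) = (2 * 4 ^ i * m i) * ((1 / 4) ^ i / 2) := by
              have : (4 : ℝ) ^ i * (1 / 4) ^ i = 1 := by rw [← mul_pow]; norm_num
              linear_combination (-(m i : ℝ)) * this
          _ ≤ Q.L i * ((1 / 4) ^ i / 2) := mul_le_mul_of_nonneg_right h4 h5.le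
      rw [hsplit]
      linarith

end

end Run7.h376
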