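import Pool.Agent.Run7.h376.Simple
import Pool.Agent.Run7.h376.Core

/-!
# `L¹([0,1],K)` is generated by every neighbourhood of zero
-/

set_option autoImplicit false

namespace Run7.h376

open Filter Topology Metric MeasureTheory Set

theorem open_surj_gen {E G : Type*} [NormedAddCommGroup E] [CompleteSpace E]
    [NormedAddCommGroup G] (Q : E →+ G) (hQ : Continuous Q)
    (hgen : ∀ (r : ℝ), 0 < r → ∀ g : G, g ∈ AddSubgroup.closure (ball (0 : G) r)) (C : ℝ)
    (δ : ℕ → ℝ) (hδ0 : ∀ n, 0 < δ n) (hδ : Tendsto δ atTop (𝓝 0))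
    (h : ∀ n (g : G), ‖g‖ < δ n → ∀ τ > 0, ∃ y, ‖y‖ ≤ C * (1 / 2) ^ n ∧ ‖g - Q y‖ < τ) :
    Function.Surjective Q ∧ IsOpenMap Q := by
  have hpre := exists_preimage Q hQ C δ hδ0 hδ h
  refine ⟨fun g => ?_, ?_⟩
  · have h1 : AddSubgroup.closure (ball (0 : G) (δ 0)) ≤ Q.range := by
      rw [AddSubgroup.closure_le]
      intro g hg
      rw [mem_ball_zero_iff] at hg
      obtain ⟨y, -, hy⟩ := hpre 0 g hg
      exact ⟨y, hy⟩
    exact h1 (hgen (δ 0) (hδ0 0) g)
  · refine IsTopologicalAddGroup.isOpenMap_iff_nhds_zero.mpr ?_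
    intro s hs
    rw [Filter.mem_map] at hs
    obtain ⟨ρ, hρ, hρs⟩ := Metric.mem_nhds_iff.mp hs
    have hlim : Tendsto (fun n : ℕ => 2 * (C * (1 / 2 : ℝ) ^ n)) atTop (𝓝 (2 * (C * 0))) :=
      ((tendsto_pow_atTop_nhds_zero_of_lt_one (by norm_num) (by norm_num)).const_mul C).const_mul 2
    rw [mul_zero, mul_zero] at hlim
    obtain ⟨n, hn⟩ := (hlim.eventually (gt_mem_nhds hρ)).exists
    refine Metric.mem_nhds_iff.mpr ⟨δ n, hδ0 n, ?_⟩
    intro g hg
    rw [mem_ball_zero_iff] at hg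
    obtain ⟨y, hy, rfl⟩ := hpre n g hg
    have : y ∈ ball (0 : E) ρ := by
      rw [mem_ball_zero_iff]; exact hy.trans_lt hn
    exact hρs this

variable {K : Type} [NormedAddCommGroup K]

/-- The restriction of `f` to a half-line. -/
noncomputable def cut (f : Lp K 1 unitMeas) (s : ℝ) : Lp K 1 unitMeas :=
  ((Lp.memLp f).indicator (measurableSet_Iic (a := s))).toLp _

theorem cut_ae (f : Lp K 1 unitMeas) (s : ℝ) : cut f s =ᵐ[unitMeas] (Iic s).indicator f :=
  MemLp.coeFn_toLp _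

theorem unitMeas_ae_mem : ∀ᵐ t ∂unitMeas, t ∈ Icc (0 : ℝ) 1 :=
  ae_restrict_mem measurableSet_Icc

theorem cut_low (f : Lp K 1 unitMeas) : cut f (-1) = 0 := by
  rw [Lp.eq_zero_iff_ae_eq_zero]
  filter_upwards [cut_ae f (-1), unitMeas_ae_mem] with t h1 h2
  rw [h1, indicator_of_notMem, Pi.zero_apply]
  intro h
  have := h2.1
  rw [mem_Iic] at h
  linarith

theorem cut_high (f : Lp K 1 unitMeas) : cut f 1 = f := by
  refine Lp.ext ?_
  filter_upwards [cut_ae f 1, unitMeas_ae_mem] with t h1 h2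
  rw [h1, indicator_of_mem]
  exact h2.2

theorem norm_lp_eq (f : Lp K 1 unitMeas) : ‖f‖ = ∫ t, ‖f t‖ ∂unitMeas := by
  rw [Lp.norm_def, eLpNorm_one_eq_lintegral_enorm,
    ← integral_norm_eq_lintegral_enorm (Lp.aestronglyMeasurable f)]

theorem norm_cut_sub (hK : ∀ κ : K, ‖κ‖ ≤ 1) (f : Lp K 1 unitMeas) {s s' : ℝ} (h : s ≤ s') :
    ‖cut f s' - cut f s‖ ≤ s' - s := by
  rw [norm_lp_eq]
  have hint2 : Integrable ((Ioc s s').indicator fun _ => (1 : ℝ)) unitMeas :=
    (integrable_const _).indicator measurableSet_Ioc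
  have hint1 : Integrable (fun t => ‖(cut f s' - cut f s : Lp K 1 unitMeas) t‖) unitMeas := by
    have := (Lp.memLp (cut f s' - cut f s)).integrable le_rfl
    exact this.norm
  calc ∫ t, ‖(cut f s' - cut f s : Lp K 1 unitMeas) t‖ ∂unitMeas
      ≤ ∫ t, (Ioc s s').indicator (fun _ => (1 : ℝ)) t ∂unitMeas := by
        refine integral_mono_ae hint1 hint2 ?_
        filter_upwards [cut_ae f s, cut_ae f s', Lp.coeFn_sub (cut f s') (cut f s)] with t h1 h2 h3
        rw [h3, Pi.sub_apply, h1, h2]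
        by_cases h4 : t ∈ Iic s
        · have h5 : t ∈ Iic s' := le_trans h4 h
          rw [indicator_of_mem h4, indicator_of_mem h5, sub_self, norm_zero]
          exact indicator_nonneg (fun _ _ => zero_le_one) _
        · by_cases h5 : t ∈ Iic s'
          · have h6 : t ∈ Ioc s s' := ⟨not_le.mp h4, h5⟩
            rw [indicator_of_notMem h4, indicator_of_mem h5, sub_zero, indicator_of_mem h6]
            exact hK _
          · rw [indicator_of_notMem h4, indicator_of_notMem h5, sub_self, norm_zero]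
            exact indicator_nonneg (fun _ _ => zero_le_one) _
    _ = unitMeas.real (Ioc s s') := by
        rw [integral_indicator measurableSet_Ioc]; simp
    _ ≤ s' - s := unitMeas_Ioc_le h

theorem lp_gen (hK : ∀ κ : K, ‖κ‖ ≤ 1) (r : ℝ) (hr : 0 < r) (f : Lp K 1 unitMeas) :
    f ∈ AddSubgroup.closure (ball (0 : Lp K 1 unitMeas) r) := by
  obtain ⟨M, hM⟩ := exists_nat_gt (2 / r)
  have hM0 : (0 : ℝ) < M := lt_of_le_of_lt (by positivity) hM
  have hstep : 2 / (M : ℝ) < r := by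
    rw [div_lt_iff₀ hM0]
    rw [div_lt_iff₀ hr] at hM
    linarith
  have h1 : ∀ i : ℕ, cut f (-1 + i * (2 / M)) ∈ AddSubgroup.closure (ball (0 : Lp K 1 unitMeas) r) := by
    intro i
    induction i with
    | zero =>
      have : (-1 : ℝ) + ((0 : ℕ) : ℝ) * (2 / M) = -1 := by simp
      rw [this, cut_low]
      exact AddSubgroup.zero_mem _
    | succ i ih =>
      have h2 : cut f (-1 + (i + 1 : ℕ) * (2 / M)) =
          cut f (-1 + i * (2 / M)) + (cut f (-1 + (i + 1 : ℕ) * (2 / M)) -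
            cut f (-1 + i * (2 / M))) := by abel
      rw [h2]
      refine AddSubgroup.add_mem _ ih (AddSubgroup.subset_closure ?_)
      rw [mem_ball_zero_iff]
      have h3 : (-1 : ℝ) + i * (2 / M) ≤ -1 + (i + 1 : ℕ) * (2 / M) := by
        push_cast
        have : 0 < 2 / (M : ℝ) := by positivity
        nlinarith
      refine lt_of_le_of_lt (norm_cut_sub hK f h3) ?_
      push_cast
      have : (-1 : ℝ) + (i + 1) * (2 / M) - (-1 + i * (2 / M)) = 2 / M := by ring
      rw [this]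
      exact hstep
  have h2 := h1 M
  have h3 : (-1 : ℝ) + M * (2 / M) = 1 := by
    field_simp
    norm_num
  rw [h3, cut_high] at h2
  exact h2

end Run7.h376
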