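import Pool.Agent.Run7.h376.ExV
import Pool.Agent.Run7.h376.GenL1

/-!
# The quotient isomorphic to `L¹([0,1],K)`
-/

set_option autoImplicit false

namespace Run7.h376

open Filter Topology Metric MeasureTheory

/-- The level of an index. -/
def lev (k : ℕ) : ℕ := (Nat.unpair (Nat.unpair k).1).1

/-- The target of an index. -/
def tgt (k : ℕ) : ℕ := (Nat.unpair (Nat.unpair k).1).2

theorem lev_le (k : ℕ) : lev k ≤ k :=
  (Nat.unpair_left_le _).trans (Nat.unpair_left_le _)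

variable {K : Type} [NormedAddCommGroup K]

theorem exists_Vseq {Q : LSeq} {e : ℕ → ℝ →+ K} {δ : ℕ → ℝ} (hδ : ∀ n, 0 < δ n)
    (hS : Short δ e) (x : ℕ → Lp K 1 unitMeas) :
    ∃ V : ℕ → SimpleFunc ℝ (ℕ × ℝ), Adm Q V lev ∧ ∀ k, ‖x (tgt k)‖ < δ (lev k) * bet Q (lev k) →
      ‖x (tgt k) - toL (FF e (V k) ((1 / 2) ^ (lev k)))‖ ≤ (1 / 2) ^ k := by
  classical
  obtain ⟨V, hV⟩ := exists_seq
    (fun k (V : SimpleFunc ℝ (ℕ × ℝ)) => (∀ t, (V t).2 = 1 ∨ (V t).2 = 2 ^ (lev k)) ∧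
      unitMeas.real {t | (V t).2 ≠ 1} ≤ bet Q (lev k) ∧
      (‖x (tgt k)‖ < δ (lev k) * bet Q (lev k) →
        ‖x (tgt k) - toL (FF e V ((1 / 2) ^ (lev k)))‖ ≤ (1 / 2) ^ k))
    (fun _ V V' => ∀ t, (V t).1 < (V' t).1)
    (by
      intro k s hs
      have hb : ∀ V : SimpleFunc ℝ (ℕ × ℝ), ∃ b : ℕ, ∀ t, (V t).1 < b := by
        intro V
        refine ⟨V.range.sup (fun q => q.1) + 1, fun t => ?_⟩
        have := Finset.le_sup (f := fun q : ℕ × ℝ => q.1) (V.mem_range_self t)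
        exact Nat.lt_succ_of_le this
      choose b hb using hb
      let j₀ := hs.toFinset.sup b
      have hj₀ : ∀ V ∈ s, ∀ t, (V t).1 < j₀ := fun V hV t =>
        (hb V t).trans_le (Finset.le_sup (f := b) (hs.mem_toFinset.mpr hV))
      by_cases hk : ‖x (tgt k)‖ < δ (lev k) * bet Q (lev k)
      · obtain ⟨V, h1, h2, h3, h4⟩ := exists_V hδ hS (lev k) (x (tgt k)) hk ((1 / 2) ^ k)
          (by positivity) j₀
        exact ⟨V, ⟨h1, h2, fun _ => h4⟩, fun W hW t => (hj₀ W hW t).trans_le (h3 t)⟩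
      · refine ⟨SimpleFunc.const ℝ (j₀, 1), ⟨fun t => Or.inl rfl, ?_, fun h => absurd h hk⟩,
          fun W hW t => hj₀ W hW t⟩
        have : {t : ℝ | ((SimpleFunc.const ℝ (j₀, (1 : ℝ)) : SimpleFunc ℝ (ℕ × ℝ)) t).2 ≠ 1} = ∅ := by
          ext t; simp
        rw [this, measureReal_empty]
        exact (bet_pos Q _).le)
  refine ⟨V, ⟨fun k => (hV k).1.1, fun k => (hV k).1.2.1, fun t => ?_⟩, fun k => (hV k).1.2.2⟩
  refine StrictMono.injective ?_
  intro m n hmn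
  exact (hV n).2 m hmn t

theorem norm_e_le {Q : LSeq} {e : ℕ → ℝ →+ K} (he : SymBd Q e) (j : ℕ) (s : ℝ) :
    ‖e j s‖ ≤ |s| := by
  have h := he {0} (fun _ => j) (by simp) (fun _ => s) |s| (by
    intro i A hA _
    have h1 : ∑ _k ∈ A, |s| ≤ |s| := by
      rw [Finset.sum_const, nsmul_eq_mul]
      have h2 : A.card ≤ 1 := by simpa using Finset.card_le_card hA
      have h3 : (A.card : ℝ) ≤ 1 := by exact_mod_cast h2
      nlinarith [abs_nonneg s]
    have h0 : 0 ≤ ∑ _k ∈ A, |s| := Finset.sum_nonneg fun _ _ => abs_nonneg _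
    calc (2 : ℝ) ^ i / Q.L i * ∑ _k ∈ A, |s| ≤ 1 * ∑ _k ∈ A, |s| :=
          mul_le_mul_of_nonneg_right (coef_le_one Q i) h0
      _ ≤ |s| := by rw [one_mul]; exact h1)
  simpa using h

theorem exists_quotient_LOne {E : Type*} [NormedAddCommGroup E] [NormedSpace ℝ E] [CompleteSpace E]
    [CompleteSpace K] [TopologicalSpace.SeparableSpace K]
    {Q : LSeq} {e : ℕ → ℝ →+ K} {δ : ℕ → ℝ} (hδ : ∀ n, 0 < δ n) (hK : ∀ κ : K, ‖κ‖ ≤ 1)
    (he : SymBd Q e) (hS : Short δ e)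
    (C : ℝ) (y : ℕ → E) (c : ℕ → E →L[ℝ] ℝ) (hy : ∀ k, ‖y k‖ ≤ C) (hcy : ∀ k, c k (y k) = 1)
    (hcross : ∀ j k, j ≠ k →
      |c j (y k)| ≤ (1 / 2) ^ (j + 1) * ((1 / 2) ^ (j + 1) * (1 / 2) ^ (k + 1)))
    (hKK : ∀ x, ‖x‖ ≤ 1 → KK Q (fun k => c k x)) :
    ∃ H : AddSubgroup E, IsClosed (H : Set E) ∧ Nonempty ((E ⧸ H) ≃ₜ+ Lp K 1 unitMeas) := by
  classical
  have h2 : Fact ((1 : ENNReal) ≠ ⊤) := ⟨ENNReal.one_ne_top⟩
  have hsep : IsSeparable unitMeas := by
    unfold unitMeas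
    infer_instance
  have hsc : SecondCountableTopology (Lp K 1 unitMeas) := Lp.SecondCountableTopology
  obtain ⟨V, hV, hVx⟩ := exists_Vseq (Q := Q) hδ hS (TopologicalSpace.denseSeq (Lp K 1 unitMeas))
  set x := TopologicalSpace.denseSeq (Lp K 1 unitMeas) with hx
  let Φ : ℕ → ℝ →+ Lp K 1 unitMeas := fun k => toL.comp (FF e (V k))
  have hΦ : ∀ k a, Φ k a = toL (FF e (V k) a) := fun k a => rfl
  -- the functionals have norm at most one
  have hc1 : ∀ k z, |c k z| ≤ ‖z‖ := by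
    intro k z
    rcases eq_or_ne z 0 with hz | hz
    · rw [hz, map_zero, abs_zero, norm_zero]
    · have hz' : 0 < ‖z‖ := norm_pos_iff.mpr hz
      have h3 : ‖(‖z‖⁻¹ : ℝ) • z‖ ≤ 1 := by
        rw [norm_smul, norm_inv, norm_norm, inv_mul_cancel₀ hz'.ne']
      have h4 := hKK _ h3 0 {k} (by simp [Q.zero])
      rw [Finset.sum_singleton, Q.zero, pow_zero, Nat.cast_one, mul_one] at h4
      change |c k ((‖z‖⁻¹ : ℝ) • z)| ≤ 1 at h4
      rw [map_smul, smul_eq_mul, abs_mul, abs_inv, abs_norm, inv_mul_le_iff₀ hz', mul_one] at h4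
      exact h4
  have hlim1 : Tendsto (fun n : ℕ => (1 / 2 : ℝ) ^ n) atTop (𝓝 0) :=
    tendsto_pow_atTop_nhds_zero_of_lt_one (by norm_num) (by norm_num)
  -- choice of parameters
  have hpar : ∀ ε : ℝ, 0 < ε → ∃ (n₀ : ℕ) (η : ℝ), 0 < η ∧
      √η + (4 ^ n₀ * √η + (1 / 2) ^ n₀) < ε := by
    intro ε hε
    obtain ⟨n₀, hn₀⟩ := (hlim1.eventually (gt_mem_nhds (half_pos hε))).exists
    have h5 : 0 < ε / (2 * (1 + 4 ^ n₀)) / 2 := by positivity
    refine ⟨n₀, (ε / (2 * (1 + 4 ^ n₀)) / 2) ^ 2, by positivity, ?_⟩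
    rw [Real.sqrt_sq h5.le]
    have h6 : ε / (2 * (1 + 4 ^ n₀)) / 2 + 4 ^ n₀ * (ε / (2 * (1 + 4 ^ n₀)) / 2) = ε / 4 := by
      have : (0 : ℝ) < 1 + 4 ^ n₀ := by positivity
      field_simp
      ring
    linarith
  -- summability in the unit ball
  have hsum1 : ∀ z, ‖z‖ ≤ 1 → Summable fun k => Φ k (c k z) := by
    intro z hz
    rw [summable_iff_vanishing_norm]
    intro ε hε
    obtain ⟨n₀, η, hη, hlt⟩ := hpar ε hε
    have hfin : {k | η < |c k z|}.Finite := by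
      by_contra hinf
      obtain ⟨i, hi⟩ := ((tendsto_pow_atTop_nhds_zero_of_lt_one (r := (1 / 4 : ℝ)) (by norm_num)
        (by norm_num)).eventually (gt_mem_nhds hη)).exists
      obtain ⟨A, hA1, hA2⟩ := Set.Infinite.exists_subset_card_eq hinf (Q.L i + 1)
      have h3 := (hKK z hz).card i (A := A) (fun k hk => by
        have : η < |c k z| := hA1 hk
        linarith)
      omega
    refine ⟨hfin.toFinset, fun t ht => ?_⟩
    have h4 : ∀ k ∈ t, |c k z| ≤ η := by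
      intro k hk
      by_contra h
      exact Finset.disjoint_left.mp ht hk (hfin.mem_toFinset.mpr (not_le.mp h))
    exact (main_ineq hK he hV (hKK z hz) t hη.le h4 n₀).trans_lt hlt
  have hsum : ∀ z, Summable fun k => Φ k (c k z) := by
    intro z
    obtain ⟨M, hM⟩ := exists_nat_gt ‖z‖
    have hM0 : (0 : ℝ) < M := lt_of_le_of_lt (norm_nonneg _) hM
    have h3 : ‖(M : ℝ)⁻¹ • z‖ ≤ 1 := by
      rw [norm_smul, norm_inv, Real.norm_of_nonneg hM0.le, inv_mul_le_iff₀ hM0, mul_one]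
      exact hM.le
    have h4 := (hsum1 _ h3).map (nsmulAddMonoidHom M : Lp K 1 unitMeas →+ Lp K 1 unitMeas)
      (continuous_nsmul M)
    refine h4.congr fun k => ?_
    simp only [Function.comp_apply, nsmulAddMonoidHom_apply]
    have h6 : c k z = M • c k ((M : ℝ)⁻¹ • z) := by
      rw [map_smul, smul_eq_mul, nsmul_eq_mul, ← mul_assoc, mul_inv_cancel₀ hM0.ne', one_mul]
    rw [h6]
    exact (map_nsmul (Φ k) M _).symm
  let q : E →+ Lp K 1 unitMeas :=
    { toFun := fun z => ∑' k, Φ k (c k z)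
      map_zero' := by simp
      map_add' := by
        intro z z'
        rw [← (hsum z).tsum_add (hsum z')]
        refine tsum_congr fun k => ?_
        rw [map_add, map_add] }
  have hq : ∀ z, q z = ∑' k, Φ k (c k z) := fun z => rfl
  -- continuity
  have hqn : ∀ z (η : ℝ) (n₀ : ℕ), ‖z‖ ≤ 1 → ‖z‖ ≤ η →
      ‖q z‖ ≤ √η + (4 ^ n₀ * √η + (1 / 2) ^ n₀) := by
    intro z η n₀ hz hzη
    have h3 : Tendsto (fun s : Finset ℕ => ‖∑ k ∈ s, Φ k (c k z)‖) atTop (𝓝 ‖q z‖) :=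
      (hsum z).hasSum.norm
    refine le_of_tendsto' h3 fun s => ?_
    exact main_ineq hK he hV (hKK z hz) s ((norm_nonneg z).trans hzη)
      (fun k _ => (hc1 k z).trans hzη) n₀
  have hqcont : Continuous q := by
    refine continuous_of_continuousAt_zero q ?_
    rw [Metric.continuousAt_iff]
    intro ε hε
    obtain ⟨n₀, η, hη, hlt⟩ := hpar ε hε
    refine ⟨min 1 η, lt_min one_pos hη, fun {z} hz => ?_⟩
    rw [dist_zero_right] at hz
    rw [map_zero, dist_zero_right]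
    exact (hqn z η n₀ (hz.le.trans (min_le_left _ _)) (hz.le.trans (min_le_right _ _))).trans_lt hlt
  -- single terms
  have hΦn : ∀ k a, ‖Φ k a‖ ≤ 2 ^ (lev k) * |a| := by
    intro k a
    refine norm_toL_le fun t => ?_
    rw [FF_apply]
    refine (norm_e_le he _ _).trans ?_
    rw [abs_mul, mul_comm]
    refine mul_le_mul_of_nonneg_right ?_ (abs_nonneg _)
    have h3 : (1 : ℝ) ≤ 2 ^ (lev k) := one_le_pow₀ (by norm_num)
    rcases hV.speed k t with h4 | h4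
    · rw [h4, abs_one]; exact h3
    · rw [h4, abs_of_pos (by positivity)]
  have hqy : ∀ k (s : ℝ), |s| ≤ 1 → ‖q (s • y k) - Φ k s‖ ≤ (1 / 2) ^ (k + 1) := by
    intro k s hs
    have h3 : HasSum (fun j => Φ j (c j (s • y k))) (q (s • y k)) := (hsum _).hasSum
    have h4 : HasSum (fun j => if j = k then Φ k s else 0) (Φ k s) := hasSum_ite_eq k _
    have h5 := h3.sub h4
    have h6 : HasSum (fun j : ℕ => (1 / 2 : ℝ) ^ (j + 1) * (1 / 2) ^ (k + 1))
        (1 * (1 / 2) ^ (k + 1)) := geo_sum.mul_right _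
    rw [one_mul] at h6
    refine h5.norm_le_of_bounded h6 fun j => ?_
    by_cases hjk : j = k
    · subst hjk
      rw [if_pos rfl, map_smul, hcy, smul_eq_mul, mul_one, sub_self, norm_zero]
      positivity
    · rw [if_neg hjk, sub_zero]
      refine (hΦn j _).trans ?_
      rw [map_smul, smul_eq_mul, abs_mul]
      have h7 := hcross j k hjk
      have h8 : (2 : ℝ) ^ (lev j) ≤ 2 ^ (j + 1) :=
        pow_le_pow_right₀ (by norm_num) ((lev_le j).trans (Nat.le_succ j))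
      calc (2 : ℝ) ^ (lev j) * (|s| * |c j (y k)|)
          ≤ 2 ^ (j + 1) * (1 * ((1 / 2) ^ (j + 1) * ((1 / 2) ^ (j + 1) * (1 / 2) ^ (k + 1)))) := by
            refine mul_le_mul h8 (mul_le_mul hs h7 (abs_nonneg _) zero_le_one) ?_ (by positivity)
            exact mul_nonneg (abs_nonneg _) (abs_nonneg _)
        _ = (2 * (1 / 2)) ^ (j + 1) * ((1 / 2) ^ (j + 1) * (1 / 2) ^ (k + 1)) := by
            rw [mul_pow]; ring
        _ = (1 / 2) ^ (j + 1) * (1 / 2) ^ (k + 1) := by norm_num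
  -- near openness
  let δ' : ℕ → ℝ := fun n => min (δ n * bet Q n) ((1 / 2) ^ n)
  have hδ'0 : ∀ n, 0 < δ' n := fun n => lt_min (mul_pos (hδ n) (bet_pos Q n)) (by positivity)
  have hδ'lim : Tendsto δ' atTop (𝓝 0) :=
    squeeze_zero (fun n => (hδ'0 n).le) (fun n => min_le_right _ _) hlim1
  have hC : 0 ≤ C := (norm_nonneg _).trans (hy 0)
  have hmain : ∀ n (g : Lp K 1 unitMeas), ‖g‖ < δ' n → ∀ τ > 0,
      ∃ z, ‖z‖ ≤ C * (1 / 2) ^ n ∧ ‖g - q z‖ < τ := by
    intro n g hg τ hτ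
    have hopen : IsOpen (ball (0 : Lp K 1 unitMeas) (δ n * bet Q n) ∩ ball g (τ / 3)) :=
      isOpen_ball.inter isOpen_ball
    have hne : (ball (0 : Lp K 1 unitMeas) (δ n * bet Q n) ∩ ball g (τ / 3)).Nonempty :=
      ⟨g, by rw [mem_ball_zero_iff]; exact hg.trans_le (min_le_left _ _),
        mem_ball_self (by positivity)⟩
    obtain ⟨z, hz, ⟨i, hi⟩⟩ :=
      (TopologicalSpace.denseRange_denseSeq (Lp K 1 unitMeas)).inter_open_nonempty _ hopen hne
    rw [← hx] at hi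
    subst hi
    have hi1 : ‖x i‖ < δ n * bet Q n := by simpa using hz.1
    have hi2 : ‖g - x i‖ < τ / 3 := by
      have := hz.2
      rwa [mem_ball, dist_eq_norm, norm_sub_rev] at this
    obtain ⟨m, hm⟩ := (hlim1.eventually (gt_mem_nhds (show 0 < τ / 3 by positivity))).exists
    obtain ⟨k, hk⟩ : ∃ k, k = Nat.pair (Nat.pair n i) m := ⟨_, rfl⟩
    have hkl : lev k = n := by simp [lev, hk]
    have hkt : tgt k = i := by simp [tgt, hk]
    have hkm : m ≤ k := by rw [hk]; exact Nat.right_le_pair _ _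
    have hk2 : (1 / 2 : ℝ) ^ k < τ / 3 :=
      lt_of_le_of_lt (pow_le_pow_of_le_one (by norm_num) (by norm_num) hkm) hm
    have hk3 : (1 / 2 : ℝ) ^ (k + 1) < τ / 3 :=
      lt_of_le_of_lt (pow_le_pow_of_le_one (by norm_num) (by norm_num) (by omega)) hm
    have h3 := hVx k
    rw [hkl, hkt] at h3
    have h4 := h3 hi1
    have hs1 : |(1 / 2 : ℝ) ^ n| ≤ 1 := by
      rw [abs_of_pos (by positivity)]
      exact pow_le_one₀ (by norm_num) (by norm_num)
    have h5 := hqy k ((1 / 2) ^ n) hs1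
    refine ⟨(1 / 2 : ℝ) ^ n • y k, ?_, ?_⟩
    · rw [norm_smul, Real.norm_of_nonneg (by positivity), mul_comm]
      exact mul_le_mul_of_nonneg_right (hy k) (by positivity)
    · calc ‖g - q ((1 / 2 : ℝ) ^ n • y k)‖
          = ‖(g - x i) + (x i - Φ k ((1 / 2) ^ n)) -
              (q ((1 / 2 : ℝ) ^ n • y k) - Φ k ((1 / 2) ^ n))‖ := by congr 1; abel
        _ ≤ ‖(g - x i) + (x i - Φ k ((1 / 2) ^ n))‖ +
              ‖q ((1 / 2 : ℝ) ^ n • y k) - Φ k ((1 / 2) ^ n)‖ := norm_sub_le _ _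
        _ ≤ ‖g - x i‖ + ‖x i - Φ k ((1 / 2) ^ n)‖ +
              ‖q ((1 / 2 : ℝ) ^ n • y k) - Φ k ((1 / 2) ^ n)‖ := by
            gcongr
            exact norm_add_le _ _
        _ < τ := by
            rw [hΦ] at h5 ⊢
            linarith
  obtain ⟨hsur, ho⟩ := open_surj_gen q hqcont (fun r hr g => lp_gen hK r hr g) C δ' hδ'0 hδ'lim hmain
  exact exists_iso q hqcont hsur ho

end Run7.h376
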