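import Mathlib

/-!
# Replacing a bounded function by an indicator function with the same integrals
-/

set_option autoImplicit false

namespace Run7.h376

open Filter Topology Metric MeasureTheory Set

/-- Lebesgue measure on the unit interval. -/
noncomputable def unitMeas : Measure ℝ := volume.restrict (Icc (0 : ℝ) 1)

instance : IsProbabilityMeasure unitMeas := by
  constructor
  simp [unitMeas]

theorem unitMeas_Ioc_le {s t : ℝ} (h : s ≤ t) : unitMeas.real (Ioc s t) ≤ t - s := by
  have h1 : unitMeas.real (Ioc s t) ≤ volume.real (Ioc s t) := by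
    unfold unitMeas
    exact ENNReal.toReal_mono (by simp) (Measure.restrict_apply_le _ _)
  rwa [Real.volume_real_Ioc_of_le h] at h1

/-- For a measurable set `B` and `0 ≤ c ≤ μ B` there is a measurable subset of measure `c`. -/
theorem exists_subset_real {B : Set ℝ} (hB : MeasurableSet B) {c : ℝ} (hc0 : 0 ≤ c)
    (hc : c ≤ unitMeas.real B) : ∃ C ⊆ B, MeasurableSet C ∧ unitMeas.real C = c := by
  let φ : ℝ → ℝ := fun t => unitMeas.real (B ∩ Iic t)
  have hφmono : ∀ s t, s ≤ t → φ s ≤ φ t := fun s t hst =>
    measureReal_mono (inter_subset_inter_right _ (Iic_subset_Iic.mpr hst))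
  have hφlip : LipschitzWith 1 φ := by
    refine LipschitzWith.of_le_add fun x y => ?_
    rcases le_total x y with hxy | hxy
    · have := hφmono x y hxy
      have h2 : 0 ≤ dist x y := dist_nonneg
      linarith
    · have h1 : B ∩ Iic x ⊆ (B ∩ Iic y) ∪ Ioc y x := by
        rintro z ⟨hz, hzx⟩
        rcases le_or_gt z y with h | h
        · exact Or.inl ⟨hz, h⟩
        · exact Or.inr ⟨h, hzx⟩
      calc φ x ≤ unitMeas.real ((B ∩ Iic y) ∪ Ioc y x) := measureReal_mono h1
        _ ≤ unitMeas.real (B ∩ Iic y) + unitMeas.real (Ioc y x) := measureReal_union_le _ _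
        _ ≤ φ y + (x - y) := by
            have := unitMeas_Ioc_le hxy
            simp only [φ]
            linarith
        _ = φ y + dist x y := by rw [Real.dist_eq, abs_of_nonneg (by linarith)]
  have h0 : φ (-1) = 0 := by
    simp only [φ]
    rw [measureReal_eq_zero_iff]
    unfold unitMeas
    rw [Measure.restrict_apply (hB.inter measurableSet_Iic)]
    have : B ∩ Iic (-1 : ℝ) ∩ Icc 0 1 = ∅ := by
      ext z
      simp only [mem_inter_iff, mem_Iic, mem_Icc, mem_empty_iff_false, iff_false]
      rintro ⟨⟨_, h1⟩, h2, _⟩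
      linarith
    rw [this, measure_empty]
  have h2 : φ 1 = unitMeas.real B := by
    simp only [φ]
    unfold unitMeas
    rw [measureReal_restrict_apply (hB.inter measurableSet_Iic), measureReal_restrict_apply hB]
    congr 1
    ext z
    simp only [mem_inter_iff, mem_Iic, mem_Icc]
    tauto
  have hivt : Icc (φ (-1)) (φ 1) ⊆ φ '' Icc (-1) 1 :=
    intermediate_value_Icc (by norm_num) hφlip.continuous.continuousOn
  rw [h0, h2] at hivt
  obtain ⟨t, -, ht⟩ := hivt ⟨hc0, hc⟩
  exact ⟨B ∩ Iic t, inter_subset_left, hB.inter measurableSet_Iic, ht⟩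

theorem dither (f : ℝ → ℝ) (hf : Measurable f) (h0 : ∀ t, 0 ≤ f t) (h1 : ∀ t, f t ≤ 1)
    {κ : Type*} (s : SimpleFunc ℝ κ) :
    ∃ C : Set ℝ, MeasurableSet C ∧
      ∀ F : κ → ℝ, ∫ t, (f t - C.indicator (fun _ => (1 : ℝ)) t) * F (s t) ∂unitMeas = 0 := by
  classical
  have hint : Integrable f unitMeas := by
    refine Integrable.of_bound hf.aestronglyMeasurable 1 (Eventually.of_forall fun t => ?_)
    rw [Real.norm_of_nonneg (h0 t)]; exact h1 t
  have hex : ∀ z : κ, ∃ C ⊆ s ⁻¹' {z}, MeasurableSet C ∧
      unitMeas.real C = ∫ t in s ⁻¹' {z}, f t ∂unitMeas := by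
    intro z
    have hm : MeasurableSet (s ⁻¹' {z}) := s.measurableSet_fiber z
    refine exists_subset_real hm ?_ ?_
    · exact integral_nonneg h0
    · calc ∫ t in s ⁻¹' {z}, f t ∂unitMeas ≤ ∫ t in s ⁻¹' {z}, (1 : ℝ) ∂unitMeas :=
            integral_mono hint.integrableOn (integrable_const _) h1
        _ = unitMeas.real (s ⁻¹' {z}) := by simp
  choose Cz hCs hCm hCv using hex
  refine ⟨⋃ z ∈ s.range, Cz z, Finset.measurableSet_biUnion _ fun z _ => hCm z, fun F => ?_⟩
  set C := ⋃ z ∈ s.range, Cz z with hC
  have hCmeas : MeasurableSet C := Finset.measurableSet_biUnion _ fun z _ => hCm z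
  have hCint : Integrable (C.indicator fun _ => (1 : ℝ)) unitMeas :=
    (integrable_const _).indicator hCmeas
  have hfib : ∀ z ∈ s.range, C ∩ s ⁻¹' {z} = Cz z := by
    intro z hz
    ext t
    constructor
    · rintro ⟨h2, h3⟩
      simp only [hC, mem_iUnion] at h2
      obtain ⟨w, hw, htw⟩ := h2
      have h4 : s t = w := hCs w htw
      have h5 : s t = z := h3
      rw [← h5, h4]
      exact htw
    · intro h2
      refine ⟨?_, hCs z h2⟩
      simp only [hC, mem_iUnion]
      exact ⟨z, hz, h2⟩
  have hdec : ∀ t, (f t - C.indicator (fun _ => (1 : ℝ)) t) * F (s t) =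
      ∑ z ∈ s.range, F z *
        (s ⁻¹' {z}).indicator (fun t => f t - C.indicator (fun _ => (1 : ℝ)) t) t := by
    intro t
    rw [Finset.sum_eq_single (s t)]
    · rw [indicator_of_mem (by simp : t ∈ s ⁻¹' {s t})]; ring
    · intro z _ hz
      rw [indicator_of_notMem, mul_zero]
      intro h
      exact hz (by simpa using h.symm)
    · intro h
      exact absurd (s.mem_range_self t) h
  calc ∫ t, (f t - C.indicator (fun _ => (1 : ℝ)) t) * F (s t) ∂unitMeas
      = ∫ t, ∑ z ∈ s.range, F z *
        (s ⁻¹' {z}).indicator (fun t => f t - C.indicator (fun _ => (1 : ℝ)) t) t ∂unitMeas := by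
        refine integral_congr_ae (Eventually.of_forall fun t => ?_)
        exact hdec t
    _ = ∑ z ∈ s.range, ∫ t, F z *
        (s ⁻¹' {z}).indicator (fun t => f t - C.indicator (fun _ => (1 : ℝ)) t) t ∂unitMeas := by
        refine integral_finsetSum _ fun z _ => ?_
        refine Integrable.const_mul ?_ _
        exact (hint.sub hCint).indicator (s.measurableSet_fiber z)
    _ = 0 := by
        refine Finset.sum_eq_zero fun z hz => ?_
        rw [integral_const_mul, integral_indicator (s.measurableSet_fiber z),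
          integral_sub hint.integrableOn hCint.integrableOn, ← hCv z,
          setIntegral_indicator hCmeas]
        have : s ⁻¹' {z} ∩ C = Cz z := by rw [inter_comm]; exact hfib z hz
        rw [this]
        simp

end Run7.h376
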