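import Pool.Agent.Run7.h376.Ineq

/-!
# Approximation by one member of a family
-/

set_option autoImplicit false

namespace Run7.h376

open Filter Topology Metric MeasureTheory

variable {K : Type} [NormedAddCommGroup K]

/-- Small elements are short multiples of far basis vectors. -/
def Short (δ : ℕ → ℝ) (e : ℕ → ℝ →+ K) : Prop :=
  ∀ (n : ℕ) (κ : K), (n = 0 ∨ ‖κ‖ < δ n) → ∀ τ > 0, ∀ j₀ : ℕ,
    ∃ j ≥ j₀, ‖κ - e j ((1 / 2) ^ n)‖ < τ

theorem exists_V {Q : LSeq} {e : ℕ → ℝ →+ K} {δ : ℕ → ℝ} (hδ : ∀ n, 0 < δ n)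
    (hS : Short δ e) (n : ℕ) (r : Lp K 1 unitMeas) (hr : ‖r‖ < δ n * bet Q n) (τ : ℝ)
    (hτ : 0 < τ) (j₀ : ℕ) :
    ∃ V : SimpleFunc ℝ (ℕ × ℝ), (∀ t, (V t).2 = 1 ∨ (V t).2 = 2 ^ n) ∧
      unitMeas.real {t | (V t).2 ≠ 1} ≤ bet Q n ∧ (∀ t, j₀ ≤ (V t).1) ∧
      ‖r - toL (FF e V ((1 / 2) ^ n))‖ ≤ τ := by
  classical
  set ε := min (τ / 2) (δ n * bet Q n - ‖r‖) with hε
  have hε0 : 0 < ε := lt_min (by positivity) (by linarith)
  obtain ⟨g, hg1, hg2⟩ := (Lp.memLp r).exists_simpleFunc_eLpNorm_sub_lt (ENNReal.one_ne_top)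
    (ε := ENNReal.ofReal ε) (by simpa using hε0)
  have hrg : ‖r - toL g‖ ≤ ε := by
    have h2 : r - toL g = ((Lp.memLp r).sub (g.memLp_of_isFiniteMeasure 1 unitMeas)).toLp _ := by
      rw [MemLp.toLp_sub (Lp.memLp r) (g.memLp_of_isFiniteMeasure 1 unitMeas),
        Lp.toLp_coeFn _ (Lp.memLp r)]
      rfl
    rw [h2, Lp.norm_toLp]
    exact ENNReal.toReal_le_of_le_ofReal hε0.le hg1.le
  have hchoose : ∀ κ : K, ∃ p : ℕ × ℝ, (p.2 = 1 ∨ p.2 = 2 ^ n) ∧ (‖κ‖ < δ n → p.2 = 1) ∧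
      j₀ ≤ p.1 ∧ ‖κ - e p.1 ((1 / 2) ^ n * p.2)‖ < τ / 2 := by
    intro κ
    by_cases hκ : ‖κ‖ < δ n
    · obtain ⟨j, hj, hj2⟩ := hS n κ (Or.inr hκ) (τ / 2) (by positivity) j₀
      exact ⟨(j, 1), Or.inl rfl, fun _ => rfl, hj, by simpa using hj2⟩
    · obtain ⟨j, hj, hj2⟩ := hS 0 κ (Or.inl rfl) (τ / 2) (by positivity) j₀
      refine ⟨(j, 2 ^ n), Or.inr rfl, fun h => absurd h hκ, hj, ?_⟩
      have h1 : (1 / 2 : ℝ) ^ n * 2 ^ n = (1 / 2) ^ 0 := by rw [← mul_pow]; norm_num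
      simp only [h1]
      exact hj2
  choose P hP1 hP2 hP3 hP4 using hchoose
  refine ⟨g.map P, fun t => hP1 _, ?_, fun t => hP3 _, ?_⟩
  · have hsub : {t | ((g.map P) t).2 ≠ 1} ⊆ {t | δ n ≤ ‖g t‖} := by
      intro t ht
      by_contra h
      have h1 : ‖g t‖ < δ n := not_le.mp h
      exact ht (hP2 _ h1)
    have hint : Integrable (fun t => ‖g t‖) unitMeas :=
      (SimpleFunc.integrable_of_isFiniteMeasure g).norm
    have hmarkov := mul_meas_ge_le_integral_of_nonneg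
      (μ := unitMeas) (f := fun t => ‖g t‖) (Eventually.of_forall fun t => norm_nonneg _) hint (δ n)
    rw [← norm_toL] at hmarkov
    have h3 : ‖toL g‖ ≤ δ n * bet Q n := by
      calc ‖toL g‖ = ‖r - (r - toL g)‖ := by congr 1; abel
        _ ≤ ‖r‖ + ‖r - toL g‖ := norm_sub_le _ _
        _ ≤ ‖r‖ + ε := by linarith
        _ ≤ ‖r‖ + (δ n * bet Q n - ‖r‖) := by
            have := min_le_right (τ / 2) (δ n * bet Q n - ‖r‖)
            linarith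
        _ = _ := by ring
    have h4 : unitMeas.real {t | δ n ≤ ‖g t‖} ≤ bet Q n :=
      le_of_mul_le_mul_left (hmarkov.trans h3) (hδ n)
    exact (measureReal_mono hsub).trans h4
  · have h1 : ‖toL g - toL (FF e (g.map P) ((1 / 2) ^ n))‖ ≤ τ / 2 := by
      rw [← map_sub]
      refine norm_toL_le fun t => ?_
      rw [SimpleFunc.sub_apply, FF_apply, SimpleFunc.map_apply]
      exact (hP4 (g t)).le
    calc ‖r - toL (FF e (g.map P) ((1 / 2) ^ n))‖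
        = ‖(r - toL g) + (toL g - toL (FF e (g.map P) ((1 / 2) ^ n)))‖ := by congr 1; abel
      _ ≤ ‖r - toL g‖ + ‖toL g - toL (FF e (g.map P) ((1 / 2) ^ n))‖ := norm_add_le _ _
      _ ≤ τ / 2 + τ / 2 := by
          have := min_le_left (τ / 2) (δ n * bet Q n - ‖r‖)
          linarith
      _ = τ := by ring

end Run7.h376
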