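import Mathlib

/-!
# Almost orthogonal sequences in a Hilbert space
-/

set_option autoImplicit false

namespace Run7.h376

open Filter Topology Metric
open scoped InnerProductSpace

theorem geo_sum : HasSum (fun k : ℕ => (1 / 2 : ℝ) ^ (k + 1)) 1 := by
  have h := hasSum_geometric_two.mul_left (1 / 2 : ℝ)
  have e : (1 / 2 : ℝ) * 2 = 1 := by norm_num
  rw [e] at h
  refine h.congr_fun ?_ |> fun h => h
  intro k
  rw [pow_succ]; ring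

theorem geo_fin (t : Finset ℕ) : ∑ k ∈ t, (1 / 2 : ℝ) ^ (k + 1) ≤ 1 :=
  sum_le_hasSum t (fun i _ => by positivity) geo_sum

theorem geo_fin_sq (t : Finset ℕ) : ∑ k ∈ t, ((1 / 2 : ℝ) ^ (k + 1)) ^ 2 ≤ 1 := by
  refine le_trans (Finset.sum_le_sum fun i _ => ?_) (geo_fin t)
  have h0 : (0 : ℝ) ≤ (1 / 2 : ℝ) ^ (i + 1) := by positivity
  have h1 : (1 / 2 : ℝ) ^ (i + 1) ≤ 1 := pow_le_one₀ (by norm_num) (by norm_num)
  nlinarith

variable {N : Type*} [NormedAddCommGroup N] [InnerProductSpace ℝ N]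

/-- Almost orthogonal sequences in the unit ball. -/
def AO (a : ℕ → N) : Prop :=
  (∀ k, ‖a k‖ ≤ 1) ∧ ∀ j k, j ≠ k → |⟪a j, a k⟫_ℝ| ≤ (1 / 2) ^ (j + 1) * (1 / 2) ^ (k + 1)

theorem AO.norm_sum_sq {a : ℕ → N} (ha : AO a) (t : Finset ℕ) (c : ℕ → ℝ) :
    ‖∑ k ∈ t, c k • a k‖ ^ 2 ≤ 2 * ∑ k ∈ t, (c k) ^ 2 := by
  have h1 : ‖∑ k ∈ t, c k • a k‖ ^ 2 = ∑ j ∈ t, ∑ k ∈ t, c j * c k * ⟪a j, a k⟫_ℝ := by
    rw [← real_inner_self_eq_norm_sq, sum_inner]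
    refine Finset.sum_congr rfl fun j _ => ?_
    rw [inner_sum]
    refine Finset.sum_congr rfl fun k _ => ?_
    rw [real_inner_smul_left, real_inner_smul_right]; ring
  have h2 : ∀ j k, c j * c k * ⟪a j, a k⟫_ℝ ≤
      (if j = k then (c j) ^ 2 else 0) +
        (|c j| * (1 / 2) ^ (j + 1)) * (|c k| * (1 / 2) ^ (k + 1)) := by
    intro j k
    by_cases hjk : j = k
    · subst hjk
      rw [if_pos rfl, real_inner_self_eq_norm_sq]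
      have h3 : ‖a j‖ ^ 2 ≤ 1 := by
        have := ha.1 j
        have h0 := norm_nonneg (a j)
        nlinarith
      have h4 : 0 ≤ (|c j| * (1 / 2) ^ (j + 1)) * (|c j| * (1 / 2) ^ (j + 1)) := by positivity
      have h5 : c j * c j * ‖a j‖ ^ 2 ≤ c j * c j * 1 :=
        mul_le_mul_of_nonneg_left h3 (mul_self_nonneg _)
      nlinarith
    · rw [if_neg hjk, zero_add]
      calc c j * c k * ⟪a j, a k⟫_ℝ ≤ |c j * c k * ⟪a j, a k⟫_ℝ| := le_abs_self _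
        _ = |c j| * |c k| * |⟪a j, a k⟫_ℝ| := by rw [abs_mul, abs_mul]
        _ ≤ |c j| * |c k| * ((1 / 2) ^ (j + 1) * (1 / 2) ^ (k + 1)) :=
            mul_le_mul_of_nonneg_left (ha.2 j k hjk) (by positivity)
        _ = _ := by ring
  have h3 : ∑ j ∈ t, ∑ k ∈ t, c j * c k * ⟪a j, a k⟫_ℝ ≤
      ∑ j ∈ t, (c j) ^ 2 + (∑ j ∈ t, |c j| * (1 / 2) ^ (j + 1)) ^ 2 := by
    calc ∑ j ∈ t, ∑ k ∈ t, c j * c k * ⟪a j, a k⟫_ℝ ≤
        ∑ j ∈ t, ∑ k ∈ t, ((if j = k then (c j) ^ 2 else 0) +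
          (|c j| * (1 / 2) ^ (j + 1)) * (|c k| * (1 / 2) ^ (k + 1))) :=
          Finset.sum_le_sum fun j _ => Finset.sum_le_sum fun k _ => h2 j k
      _ = _ := by
          simp_rw [Finset.sum_add_distrib]
          congr 1
          · refine Finset.sum_congr rfl fun j hj => ?_
            rw [Finset.sum_ite_eq, if_pos hj]
          · rw [sq, Finset.sum_mul_sum]
  have h4 : (∑ j ∈ t, |c j| * (1 / 2) ^ (j + 1)) ^ 2 ≤ ∑ j ∈ t, (c j) ^ 2 := by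
    calc (∑ j ∈ t, |c j| * (1 / 2) ^ (j + 1)) ^ 2 ≤
        (∑ j ∈ t, |c j| ^ 2) * ∑ j ∈ t, ((1 / 2 : ℝ) ^ (j + 1)) ^ 2 :=
          Finset.sum_mul_sq_le_sq_mul_sq _ _ _
      _ ≤ (∑ j ∈ t, |c j| ^ 2) * 1 :=
          mul_le_mul_of_nonneg_left (geo_fin_sq t) (Finset.sum_nonneg fun _ _ => sq_nonneg _)
      _ = _ := by simp
  rw [h1]
  linarith

/-- Bessel's inequality for almost orthogonal sequences. -/
theorem AO.bessel {a : ℕ → N} (ha : AO a) (t : Finset ℕ) (z : N) :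
    ∑ k ∈ t, ⟪z, a k⟫_ℝ ^ 2 ≤ 2 * ‖z‖ ^ 2 := by
  set s := ∑ k ∈ t, ⟪z, a k⟫_ℝ ^ 2 with hs
  have hs0 : 0 ≤ s := Finset.sum_nonneg fun _ _ => sq_nonneg _
  have h1 : s = ⟪z, ∑ k ∈ t, ⟪z, a k⟫_ℝ • a k⟫_ℝ := by
    rw [inner_sum]
    refine Finset.sum_congr rfl fun k _ => ?_
    rw [real_inner_smul_right]; ring
  have h2 : s ≤ ‖z‖ * ‖∑ k ∈ t, ⟪z, a k⟫_ℝ • a k‖ := by
    conv_lhs => rw [h1]
    exact real_inner_le_norm _ _
  have h3 := ha.norm_sum_sq t (fun k => ⟪z, a k⟫_ℝ)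
  rw [← hs] at h3
  set b := ‖∑ k ∈ t, ⟪z, a k⟫_ℝ • a k‖ with hb
  have hb0 : 0 ≤ b := norm_nonneg _
  have hz0 := norm_nonneg z
  have h4 : s ^ 2 ≤ 2 * ‖z‖ ^ 2 * s := by
    calc s ^ 2 ≤ (‖z‖ * b) ^ 2 := pow_le_pow_left₀ hs0 h2 2
      _ = ‖z‖ ^ 2 * b ^ 2 := by ring
      _ ≤ ‖z‖ ^ 2 * (2 * s) := mul_le_mul_of_nonneg_left h3 (sq_nonneg _)
      _ = _ := by ring
  rcases hs0.eq_or_lt with h | h
  · rw [← h]; positivity
  · have : s * s ≤ (2 * ‖z‖ ^ 2) * s := by nlinarith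
    exact le_of_mul_le_mul_right this h

theorem AO.summable [CompleteSpace N] {a : ℕ → N} (ha : AO a) {c : ℕ → ℝ}
    (hc : Summable fun k => (c k) ^ 2) : Summable fun k => c k • a k := by
  rw [summable_iff_vanishing_norm]
  intro ε hε
  have h := summable_iff_vanishing_norm.mp hc (ε ^ 2 / 2) (by positivity)
  obtain ⟨s, hs⟩ := h
  refine ⟨s, fun t ht => ?_⟩
  have h1 := hs t ht
  rw [Real.norm_of_nonneg (Finset.sum_nonneg fun _ _ => sq_nonneg _)] at h1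
  have h2 := ha.norm_sum_sq t c
  have h3 : ‖∑ k ∈ t, c k • a k‖ ^ 2 < ε ^ 2 := by linarith
  exact lt_of_pow_lt_pow_left₀ 2 hε.le h3

theorem AO.norm_tsum_sq [CompleteSpace N] {a : ℕ → N} (ha : AO a) {c : ℕ → ℝ}
    (hc : Summable fun k => (c k) ^ 2) : ‖∑' k, c k • a k‖ ^ 2 ≤ 2 * ∑' k, (c k) ^ 2 := by
  have h1 := (ha.summable hc).hasSum
  have h2 : Tendsto (fun t : Finset ℕ => ‖∑ k ∈ t, c k • a k‖ ^ 2) atTop
      (𝓝 (‖∑' k, c k • a k‖ ^ 2)) := (h1.norm.pow 2)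
  have h3 : Tendsto (fun t : Finset ℕ => 2 * ∑ k ∈ t, (c k) ^ 2) atTop
      (𝓝 (2 * ∑' k, (c k) ^ 2)) := (Tendsto.const_mul 2 hc.hasSum)
  exact le_of_tendsto_of_tendsto' h2 h3 fun t => ha.norm_sum_sq t c

end Run7.h376
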