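import Pool.Agent.Run7.h376.Simple

/-!
# The main inequality
-/

set_option autoImplicit false

namespace Run7.h376

open Filter Topology Metric MeasureTheory

/-- The bound for the bad sets. -/
noncomputable def bet (Q : LSeq) (n : ℕ) : ℝ := (1 / 4) ^ (n + 2) / Q.L (3 * n + 6)

theorem bet_pos (Q : LSeq) (n : ℕ) : 0 < bet Q n := by
  have := L_pos Q (3 * n + 6)
  unfold bet; positivity

section
variable {K : Type} [NormedAddCommGroup K]

/-- The symmetry bound. -/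
def SymBd (Q : LSeq) (e : ℕ → ℝ →+ K) : Prop :=
  ∀ (S : Finset ℕ) (J : ℕ → ℕ), Set.InjOn J S → ∀ (b : ℕ → ℝ) (C : ℝ),
    (∀ i, ∀ A ⊆ S, A.card ≤ Q.L i → (2 ^ i / Q.L i) * ∑ k ∈ A, |b k| ≤ C) →
    ‖∑ k ∈ S, e (J k) (b k)‖ ≤ C

/-- Admissible choices of the families. -/
structure Adm (Q : LSeq) (V : ℕ → SimpleFunc ℝ (ℕ × ℝ)) (nn : ℕ → ℕ) : Prop where
  speed : ∀ k t, (V k t).2 = 1 ∨ (V k t).2 = 2 ^ (nn k)
  small : ∀ k, unitMeas.real {t | (V k t).2 ≠ 1} ≤ bet Q (nn k)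
  inj : ∀ t, Function.Injective fun k => (V k t).1

variable {Q : LSeq} {e : ℕ → ℝ →+ K}

theorem good_part (he : SymBd Q e) {V : ℕ → SimpleFunc ℝ (ℕ × ℝ)} {nn : ℕ → ℕ}
    (hV : Adm Q V nn) {a : ℕ → ℝ} (ha : KK Q a) (S : Finset ℕ) {η : ℝ} (hη : 0 ≤ η)
    (h : ∀ k ∈ S, |a k| ≤ η) : ‖∑ k ∈ S, toL (Fg e (V k) (a k))‖ ≤ √η := by
  rw [← map_sum]
  refine norm_toL_le fun t => ?_
  rw [sum_apply]
  simp_rw [Fg_apply]
  refine he S (fun k => (V k t).1) ((hV.inj t).injOn) a _ ?_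
  intro i A hA hc
  exact ha.avg i hc (fun k hk => h k (hA hk)) hη

theorem bad_part_one (he : SymBd Q e) {V : ℕ → SimpleFunc ℝ (ℕ × ℝ)} {nn : ℕ → ℕ}
    (hV : Adm Q V nn) {a : ℕ → ℝ} (ha : KK Q a) (S : Finset ℕ) (n : ℕ)
    (hS : ∀ k ∈ S, nn k = n) {η : ℝ} (hη : 0 ≤ η)
    (h : ∀ k ∈ S, |a k| ≤ η) : ‖∑ k ∈ S, toL (Fb e (V k) (a k))‖ ≤ 2 ^ n * √η := by
  rw [← map_sum]
  refine norm_toL_le fun t => ?_
  rw [sum_apply]
  simp_rw [Fb_apply]
  refine he S (fun k => (V k t).1) ((hV.inj t).injOn) (fun k => a k * ((V k t).2 - 1)) _ ?_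
  intro i A hA hc
  have h1 : ∑ k ∈ A, |a k * ((V k t).2 - 1)| ≤ 2 ^ n * ∑ k ∈ A, |a k| := by
    rw [Finset.mul_sum]
    refine Finset.sum_le_sum fun k hk => ?_
    rw [abs_mul, mul_comm]
    refine mul_le_mul_of_nonneg_right ?_ (abs_nonneg _)
    have h2 : (1 : ℝ) ≤ 2 ^ n := one_le_pow₀ (by norm_num)
    rcases hV.speed k t with h3 | h3
    · rw [h3, sub_self, abs_zero]; positivity
    · rw [h3, hS k (hA hk), abs_of_nonneg (by linarith)]; linarith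
  calc (2 ^ i / Q.L i) * ∑ k ∈ A, |a k * ((V k t).2 - 1)|
      ≤ (2 ^ i / Q.L i) * (2 ^ n * ∑ k ∈ A, |a k|) :=
        mul_le_mul_of_nonneg_left h1 (coef_pos Q i).le
    _ = 2 ^ n * ((2 ^ i / Q.L i) * ∑ k ∈ A, |a k|) := by ring
    _ ≤ 2 ^ n * √η := by
        refine mul_le_mul_of_nonneg_left ?_ (by positivity)
        exact ha.avg i hc (fun k hk => h k (hA hk)) hη

theorem bad_part_two (hK : ∀ κ : K, ‖κ‖ ≤ 1) (he : SymBd Q e)
    {V : ℕ → SimpleFunc ℝ (ℕ × ℝ)} {nn : ℕ → ℕ}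
    (hV : Adm Q V nn) {a : ℕ → ℝ} (ha : KK Q a) (S : Finset ℕ) (n : ℕ)
    (hS : ∀ k ∈ S, nn k = n) : ‖∑ k ∈ S, toL (Fb e (V k) (a k))‖ ≤ (1 / 4) ^ (n + 1) := by
  classical
  let S₁ := S.filter fun k => (1 / 4 : ℝ) ^ (3 * n + 6) < |a k|
  let S₂ := S.filter fun k => ¬ (1 / 4 : ℝ) ^ (3 * n + 6) < |a k|
  have hsplit : ∑ k ∈ S, toL (Fb e (V k) (a k)) =
      ∑ k ∈ S₁, toL (Fb e (V k) (a k)) + ∑ k ∈ S₂, toL (Fb e (V k) (a k)) :=
    (Finset.sum_filter_add_sum_filter_not S _ _).symm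
  have h1 : ‖∑ k ∈ S₁, toL (Fb e (V k) (a k))‖ ≤ (1 / 4) ^ (n + 2) := by
    have hcard : S₁.card ≤ Q.L (3 * n + 6) :=
      ha.card (3 * n + 6) fun k hk => (Finset.mem_filter.mp hk).2
    calc ‖∑ k ∈ S₁, toL (Fb e (V k) (a k))‖ ≤ ∑ k ∈ S₁, ‖toL (Fb e (V k) (a k))‖ :=
          norm_sum_le _ _
      _ ≤ ∑ k ∈ S₁, bet Q n := by
          refine Finset.sum_le_sum fun k hk => ?_
          have hkn : nn k = n := hS k (Finset.mem_filter.mp hk).1
          have hm : MeasurableSet {t | (V k t).2 ≠ 1} := by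
            have : {t | (V k t).2 ≠ 1} = (V k) ⁻¹' {q | q.2 ≠ 1} := rfl
            rw [this]
            exact (V k).measurableSet_preimage _
          have h2 := hV.small k
          rw [hkn] at h2
          refine (norm_toL_le_meas hK hm ?_).trans h2
          intro t ht
          have : (V k t).2 = 1 := by
            by_contra hh; exact ht hh
          rw [Fb_apply, this, sub_self, mul_zero, map_zero]
      _ = S₁.card * bet Q n := by rw [Finset.sum_const, nsmul_eq_mul]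
      _ ≤ Q.L (3 * n + 6) * bet Q n := by
          refine mul_le_mul_of_nonneg_right ?_ (bet_pos Q n).le
          exact_mod_cast hcard
      _ = (1 / 4) ^ (n + 2) := by
          have := L_pos Q (3 * n + 6)
          unfold bet
          rw [mul_div_cancel₀ _ this.ne']
  have h2 : ‖∑ k ∈ S₂, toL (Fb e (V k) (a k))‖ ≤ (1 / 4) ^ (n + 2) := by
    have h3 := bad_part_one he hV ha S₂ n (fun k hk => hS k (Finset.mem_filter.mp hk).1)
      (η := (1 / 4) ^ (3 * n + 6)) (by positivity)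
      (fun k hk => not_lt.mp (Finset.mem_filter.mp hk).2)
    refine h3.trans ?_
    have h4 : √((1 / 4 : ℝ) ^ (3 * n + 6)) = (1 / 8) ^ (n + 2) := by
      have : (1 / 4 : ℝ) ^ (3 * n + 6) = ((1 / 8) ^ (n + 2)) ^ 2 := by
        rw [← pow_mul, show (1 / 8 : ℝ) = (1 / 2) ^ 3 by norm_num, ← pow_mul,
          show (1 / 4 : ℝ) = (1 / 2) ^ 2 by norm_num, ← pow_mul]
        congr 1; ring
      rw [this, Real.sqrt_sq (by positivity)]
    rw [h4]
    calc (2 : ℝ) ^ n * (1 / 8) ^ (n + 2) ≤ 2 ^ (n + 2) * (1 / 8) ^ (n + 2) := by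
          refine mul_le_mul_of_nonneg_right ?_ (by positivity)
          exact pow_le_pow_right₀ (by norm_num) (by omega)
      _ = (1 / 4) ^ (n + 2) := by rw [← mul_pow]; norm_num
  rw [hsplit]
  calc ‖∑ k ∈ S₁, toL (Fb e (V k) (a k)) + ∑ k ∈ S₂, toL (Fb e (V k) (a k))‖
      ≤ (1 / 4) ^ (n + 2) + (1 / 4) ^ (n + 2) := (norm_add_le _ _).trans (add_le_add h1 h2)
    _ ≤ (1 / 4) ^ (n + 1) := by
        rw [pow_succ (1 / 4 : ℝ) (n + 1)]
        have : (0 : ℝ) < (1 / 4) ^ (n + 1) := by positivity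
        linarith

/-- The main inequality. -/
theorem main_ineq (hK : ∀ κ : K, ‖κ‖ ≤ 1) (he : SymBd Q e)
    {V : ℕ → SimpleFunc ℝ (ℕ × ℝ)} {nn : ℕ → ℕ}
    (hV : Adm Q V nn) {a : ℕ → ℝ} (ha : KK Q a) (S : Finset ℕ) {η : ℝ} (hη : 0 ≤ η)
    (h : ∀ k ∈ S, |a k| ≤ η) (n₀ : ℕ) :
    ‖∑ k ∈ S, toL (FF e (V k) (a k))‖ ≤ √η + (4 ^ n₀ * √η + (1 / 2) ^ n₀) := by
  classical
  have h1 : ∑ k ∈ S, toL (FF e (V k) (a k)) =
      ∑ k ∈ S, toL (Fg e (V k) (a k)) + ∑ k ∈ S, toL (Fb e (V k) (a k)) := by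
    rw [← Finset.sum_add_distrib]
    refine Finset.sum_congr rfl fun k _ => ?_
    rw [FF_eq, map_add]
  have h2 : ∑ k ∈ S, toL (Fb e (V k) (a k)) = ∑ n ∈ S.image nn,
      ∑ k ∈ S.filter (fun k => nn k = n), toL (Fb e (V k) (a k)) :=
    (Finset.sum_fiberwise_of_maps_to (fun k hk => Finset.mem_image_of_mem nn hk) _).symm
  have hs := Real.sqrt_nonneg η
  have h3 : ∀ n, ‖∑ k ∈ S.filter (fun k => nn k = n), toL (Fb e (V k) (a k))‖ ≤
      (4 ^ n₀ * √η + (1 / 2) ^ n₀) * (1 / 2) ^ (n + 1) := by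
    intro n
    rcases lt_or_ge n n₀ with hn | hn
    · have h4 := bad_part_one he hV ha (S.filter fun k => nn k = n) n
        (fun k hk => (Finset.mem_filter.mp hk).2) hη
        (fun k hk => h k (Finset.mem_filter.mp hk).1)
      have h5 : (2 : ℝ) ^ n ≤ 4 ^ n₀ * (1 / 2) ^ (n + 1) := by
        have h6 : (4 : ℝ) ^ (n + 1) ≤ 4 ^ n₀ := pow_le_pow_right₀ (by norm_num) (by omega)
        have h7 : (2 : ℝ) ^ n ≤ 4 ^ (n + 1) * (1 / 2) ^ (n + 1) := by
          rw [← mul_pow]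
          norm_num
          rw [pow_succ]
          have : (0 : ℝ) < 2 ^ n := by positivity
          linarith
        refine h7.trans (mul_le_mul_of_nonneg_right h6 (by positivity))
      calc ‖∑ k ∈ S.filter (fun k => nn k = n), toL (Fb e (V k) (a k))‖ ≤ 2 ^ n * √η := h4
        _ ≤ (4 ^ n₀ * (1 / 2) ^ (n + 1)) * √η := mul_le_mul_of_nonneg_right h5 hs
        _ = (4 ^ n₀ * √η) * (1 / 2) ^ (n + 1) := by ring
        _ ≤ _ := by
            refine mul_le_mul_of_nonneg_right ?_ (by positivity)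
            have : (0 : ℝ) < (1 / 2) ^ n₀ := by positivity
            linarith
    · have h4 := bad_part_two hK he hV ha (S.filter fun k => nn k = n) n
        (fun k hk => (Finset.mem_filter.mp hk).2)
      calc ‖∑ k ∈ S.filter (fun k => nn k = n), toL (Fb e (V k) (a k))‖ ≤ (1 / 4) ^ (n + 1) := h4
        _ = (1 / 2) ^ (n + 1) * (1 / 2) ^ (n + 1) := by rw [← mul_pow]; norm_num
        _ ≤ (1 / 2) ^ n₀ * (1 / 2) ^ (n + 1) := by
            refine mul_le_mul_of_nonneg_right ?_ (by positivity)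
            exact pow_le_pow_of_le_one (by norm_num) (by norm_num) (by omega)
        _ ≤ _ := by
            refine mul_le_mul_of_nonneg_right ?_ (by positivity)
            have : 0 ≤ 4 ^ n₀ * √η := by positivity
            linarith
  rw [h1]
  refine (norm_add_le _ _).trans (add_le_add (good_part he hV ha S hη h) ?_)
  rw [h2]
  calc ‖∑ n ∈ S.image nn, ∑ k ∈ S.filter (fun k => nn k = n), toL (Fb e (V k) (a k))‖
      ≤ ∑ n ∈ S.image nn, ‖∑ k ∈ S.filter (fun k => nn k = n), toL (Fb e (V k) (a k))‖ :=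
        norm_sum_le _ _
    _ ≤ ∑ n ∈ S.image nn, (4 ^ n₀ * √η + (1 / 2) ^ n₀) * (1 / 2) ^ (n + 1) :=
        Finset.sum_le_sum fun n _ => h3 n
    _ = (4 ^ n₀ * √η + (1 / 2) ^ n₀) * ∑ n ∈ S.image nn, (1 / 2) ^ (n + 1) := by
        rw [Finset.mul_sum]
    _ ≤ (4 ^ n₀ * √η + (1 / 2) ^ n₀) * 1 := by
        refine mul_le_mul_of_nonneg_left (geo_fin _) (by positivity)
    _ = _ := mul_one _

end

end Run7.h376
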