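import Pool.Agent.Run7.h376.Nontriv

/-!
# A bounded group in which small elements are short multiples of far basis vectors
-/

set_option autoImplicit false

namespace Run7.h376

open Filter Topology Metric

/-- The rational finitely supported sequences. -/
noncomputable def ratHom (Q : LSeq) : (ℕ →₀ ℚ) →+ NN Q :=
  Finsupp.mapRange.addMonoidHom ((Rat.castHom ℝ : ℚ →+* ℝ) : ℚ →+ ℝ)

theorem ratHom_single (Q : LSeq) (j : ℕ) (q : ℚ) :
    ratHom Q (Finsupp.single j q) = NN.sg Q j (q : ℝ) := by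
  exact Finsupp.mapRange_single (f := fun x : ℚ => (x : ℝ)) (hf := Rat.cast_zero)

theorem ratHom_dense (Q : LSeq) : DenseRange (ratHom Q) := by
  have h : (ratHom Q).range.topologicalClosure = ⊤ := by
    rw [eq_top_iff]
    intro b _
    have hsg : ∀ j (s : ℝ), NN.sg Q j s ∈ (ratHom Q).range.topologicalClosure := by
      intro j s
      show NN.sg Q j s ∈ closure ((ratHom Q).range : Set (NN Q))
      rw [Metric.mem_closure_iff]
      intro ε hε
      obtain ⟨q, hq1, hq2⟩ := exists_rat_btwn (show s < s + ε by linarith)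
      refine ⟨NN.sg Q j (q : ℝ), ⟨Finsupp.single j q, ratHom_single Q j q⟩, ?_⟩
      rw [dist_eq_norm, ← map_sub]
      refine lt_of_le_of_lt (norm_sg_le Q j _) ?_
      rw [abs_sub_lt_iff]
      constructor <;> linarith
    have hind : ∀ b : ℕ →₀ ℝ, (show NN Q from b) ∈ (ratHom Q).range.topologicalClosure := by
      intro b
      induction b using Finsupp.induction_linear with
      | zero => exact AddSubgroup.zero_mem _
      | add f g hf hg => exact AddSubgroup.add_mem _ hf hg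
      | single a b => exact hsg a b
    exact hind b
  intro b
  have hb : b ∈ (ratHom Q).range.topologicalClosure := by rw [h]; trivial
  exact hb

instance (Q : LSeq) : TopologicalSpace.SeparableSpace (NN Q) := by
  refine ⟨⟨Set.range (ratHom Q), Set.countable_range _, ratHom_dense Q⟩⟩

theorem exists_K (Q : LSeq) : ∃ (δ : ℕ → ℝ) (K : Type) (_ : NormedAddCommGroup K)
    (e : ℕ → ℝ →+ K), (∀ n, 0 < δ n) ∧ CompleteSpace K ∧ TopologicalSpace.SeparableSpace K ∧
    Nontrivial K ∧ (∀ κ : K, ‖κ‖ ≤ 1) ∧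
    (∀ (S : Finset ℕ) (J : ℕ → ℕ), Set.InjOn J S → ∀ (b : ℕ → ℝ) (C : ℝ),
      (∀ i, ∀ A ⊆ S, A.card ≤ Q.L i → (2 ^ i / Q.L i) * ∑ k ∈ A, |b k| ≤ C) →
      ‖∑ k ∈ S, e (J k) (b k)‖ ≤ C) ∧
    (∀ (n : ℕ) (κ : K), (n = 0 ∨ ‖κ‖ < δ n) → ∀ τ > 0, ∀ j₀ : ℕ,
      ∃ j ≥ j₀, ‖κ - e j ((1 / 2) ^ n)‖ < τ) := by
  classical
  let δ : ℕ → ℝ := fun n => (1 / 8) * (1 / 2) ^ (n + 1) / Q.L n
  have hδ : ∀ n, 0 < δ n := fun n => by
    have := L_pos Q n
    simp only [δ]; positivity
  have hδL : ∀ n, δ n * Q.L n ≤ (1 / 8) * (1 / 2) ^ (n + 1) := fun n => by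
    have := L_pos Q n
    simp only [δ]
    rw [div_mul_cancel₀ _ this.ne']
  let x : ℕ → NN Q := TopologicalSpace.denseSeq (NN Q)
  let nn : ℕ → ℕ := fun k => (Nat.unpair (Nat.unpair k).1).1
  let ii : ℕ → ℕ := fun k => (Nat.unpair (Nat.unpair k).1).2
  let u : ℕ → NN Q := fun k =>
    if (∀ j, k < j → (x (ii k)).co j = 0) ∧ (nn k = 0 ∨ ‖x (ii k)‖ < δ (nn k)) then x (ii k) else 0
  have hsupp : ∀ k j, k < j → (u k).co j = 0 := by
    intro k j hkj
    simp only [u]
    split_ifs with h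
    · exact h.1 j hkj
    · rfl
  have hu : ∀ k, nn k ≠ 0 → ‖u k‖ < δ (nn k) := by
    intro k hk
    simp only [u]
    split_ifs with h
    · exact h.2.resolve_left hk
    · rw [norm_zero]; exact hδ _
  have hocc : ∀ n i, (n = 0 ∨ ‖x i‖ < δ n) → ∀ j₀ : ℕ, ∃ k ≥ j₀, nn k = n ∧ u k = x i := by
    intro n i hni j₀
    obtain ⟨b, hb⟩ : ∃ b : ℕ, ∀ j, b < j → (x i).co j = 0 := by
      let s := (show ℕ →₀ ℝ from x i).support
      refine ⟨s.sup id, fun j hj => ?_⟩
      have : j ∉ s := by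
        intro h
        have := Finset.le_sup (f := id) h
        simp only [id] at this
        omega
      exact Finsupp.notMem_support_iff.mp this
    let k := Nat.pair (Nat.pair n i) (max b j₀)
    have hk : max b j₀ ≤ k := Nat.right_le_pair _ _
    have hnn : nn k = n := by simp [nn, k]
    have hii : ii k = i := by simp [ii, k]
    refine ⟨k, by omega, hnn, ?_⟩
    simp only [u]
    rw [hnn, hii, if_pos]
    exact ⟨fun j hj => hb j (by omega), hni⟩
  let D : AddSubgroup (NN Q) := AddSubgroup.closure (Set.range (vv Q u nn))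
  -- the nontriviality estimate
  have hD : ∀ d ∈ D, ‖d‖ < 1 / 2 → |d.co 0| ≤ 1 / 8 := by
    intro d hd hdn
    have hrep : ∃ (M : ℕ) (m : ℕ → ℤ), d = ∑ k ∈ Finset.range M, m k • vv Q u nn k := by
      let Ψ : (ℕ →₀ ℤ) →+ NN Q := Finsupp.liftAddHom fun k => (zmultiplesHom (NN Q)) (vv Q u nn k)
      have hle : D ≤ Ψ.range := by
        rw [AddSubgroup.closure_le]
        rintro _ ⟨k, rfl⟩
        refine ⟨Finsupp.single k 1, ?_⟩
        simp [Ψ]
      obtain ⟨m, hm⟩ := hle hd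
      refine ⟨m.support.sup id + 1, m, ?_⟩
      rw [← hm]
      simp only [Ψ, Finsupp.liftAddHom_apply]
      rw [Finsupp.sum]
      refine Finset.sum_subset ?_ ?_
      · intro k hk
        have := Finset.le_sup (f := id) hk
        simp only [id] at this
        exact Finset.mem_range.mpr (by omega)
      · intro k _ hk
        rw [Finsupp.notMem_support_iff.mp hk, map_zero]
    obtain ⟨M, m, hm⟩ := hrep
    exact nontriv Q u nn δ hδ hδL hsupp hu M m d hm hdn
  -- the group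
  let q : NN Q →+ UniformSpace.Completion (NN Q ⧸ D) :=
    (UniformSpace.Completion.toCompl (α := NN Q ⧸ D)).comp (QuotientAddGroup.mk' D)
  have hq : ∀ b, q b = ((QuotientAddGroup.mk b : NN Q ⧸ D) :
      UniformSpace.Completion (NN Q ⧸ D)) := fun b => rfl
  have hqn : ∀ b, ‖q b‖ = ‖(QuotientAddGroup.mk b : NN Q ⧸ D)‖ := fun b => by
    rw [hq, UniformSpace.Completion.norm_coe]
  have hqle : ∀ b, ‖q b‖ ≤ ‖b‖ := fun b => by
    rw [hqn]; exact QuotientAddGroup.norm_mk_le_norm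
  have hqcont : Continuous q := by
    refine (UniformSpace.Completion.continuous_coe _).comp QuotientAddGroup.continuous_mk
  have hqdense : DenseRange q := by
    have h1 : DenseRange (fun b : NN Q => (QuotientAddGroup.mk b : NN Q ⧸ D)) :=
      QuotientAddGroup.mk_surjective.denseRange
    exact UniformSpace.Completion.denseRange_coe.comp h1
      (UniformSpace.Completion.continuous_coe _)
  have hqD : ∀ b ∈ D, q b = 0 := by
    intro b hb
    rw [hq, (QuotientAddGroup.eq_zero_iff b).mpr hb]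
    exact UniformSpace.Completion.coe_zero
  have hqv : ∀ k, q (u k) = q (NN.sg Q (k + 1) ((1 / 2) ^ (nn k))) := by
    intro k
    have h1 : q (vv Q u nn k) = 0 := hqD _ (AddSubgroup.subset_closure ⟨k, rfl⟩)
    unfold vv at h1
    rw [map_sub, sub_eq_zero] at h1
    exact h1
  let e : ℕ → ℝ →+ UniformSpace.Completion (NN Q ⧸ D) := fun j => q.comp (NN.sg Q j)
  have hK2 : ∀ (n : ℕ) (κ : UniformSpace.Completion (NN Q ⧸ D)), (n = 0 ∨ ‖κ‖ < δ n) →
      ∀ τ > 0, ∀ j₀ : ℕ, ∃ j ≥ j₀, ‖κ - e j ((1 / 2) ^ n)‖ < τ := by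
    intro n κ hκ τ hτ j₀
    obtain ⟨i, hi1, hi2⟩ : ∃ i, (n = 0 ∨ ‖x i‖ < δ n) ∧ ‖κ - q (x i)‖ < τ := by
      rcases eq_or_ne n 0 with hn | hn
      · have hopen : IsOpen (q ⁻¹' ball κ τ) := isOpen_ball.preimage hqcont
        have hne : (q ⁻¹' ball κ τ).Nonempty := by
          obtain ⟨b, hb⟩ := hqdense.exists_dist_lt κ hτ
          exact ⟨b, by rw [Set.mem_preimage, mem_ball, dist_comm]; exact hb⟩
        obtain ⟨z, hz, ⟨i, rfl⟩⟩ :=
          (TopologicalSpace.denseRange_denseSeq (NN Q)).inter_open_nonempty _ hopen hne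
        refine ⟨i, Or.inl hn, ?_⟩
        rw [Set.mem_preimage, mem_ball, dist_eq_norm, norm_sub_rev] at hz
        exact hz
      · have hκ' : ‖κ‖ < δ n := hκ.resolve_left hn
        have hopen1 : IsOpen (ball (0 : UniformSpace.Completion (NN Q ⧸ D)) (δ n) ∩ ball κ τ) :=
          isOpen_ball.inter isOpen_ball
        have hne1 : (ball (0 : UniformSpace.Completion (NN Q ⧸ D)) (δ n) ∩ ball κ τ).Nonempty :=
          ⟨κ, by rwa [mem_ball_zero_iff], mem_ball_self hτ⟩
        obtain ⟨z, hz, ⟨b, rfl⟩⟩ := hqdense.inter_open_nonempty _ hopen1 hne1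
        have hb : ‖(QuotientAddGroup.mk b : NN Q ⧸ D)‖ < δ n := by
          have := hz.1
          rwa [mem_ball_zero_iff, hqn] at this
        obtain ⟨b', hb', hb'n⟩ := QuotientAddGroup.norm_lt_iff.mp hb
        have hqb' : q b' = q b := by rw [hq, hq, hb']
        have hopen : IsOpen (ball (0 : NN Q) (δ n) ∩ q ⁻¹' ball κ τ) :=
          isOpen_ball.inter (isOpen_ball.preimage hqcont)
        have hne : (ball (0 : NN Q) (δ n) ∩ q ⁻¹' ball κ τ).Nonempty :=
          ⟨b', by rwa [mem_ball_zero_iff], by rw [Set.mem_preimage, hqb']; exact hz.2⟩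
        obtain ⟨z, hz, ⟨i, rfl⟩⟩ :=
          (TopologicalSpace.denseRange_denseSeq (NN Q)).inter_open_nonempty _ hopen hne
        refine ⟨i, Or.inr ?_, ?_⟩
        · have := hz.1
          rwa [mem_ball_zero_iff] at this
        · have := hz.2
          rw [Set.mem_preimage, mem_ball, dist_eq_norm, norm_sub_rev] at this
          exact this
    obtain ⟨k, hk, hkn, hku⟩ := hocc n i hi1 j₀
    refine ⟨k + 1, by omega, ?_⟩
    have h1 : e (k + 1) ((1 / 2) ^ n) = q (x i) := by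
      rw [← hku, hqv k, hkn]; rfl
    rw [h1]; exact hi2
  have hebd : ∀ j s, ‖e j s‖ ≤ |s| := fun j s => (hqle _).trans (norm_sg_le Q j s)
  have hbd : ∀ κ : UniformSpace.Completion (NN Q ⧸ D), ‖κ‖ ≤ 1 := by
    intro κ
    refine le_of_forall_pos_lt_add fun τ hτ => ?_
    obtain ⟨j, -, hj⟩ := hK2 0 κ (Or.inl rfl) τ hτ 0
    have h1 := hebd j ((1 / 2) ^ 0)
    rw [pow_zero, abs_one] at h1
    rw [pow_zero] at hj
    calc ‖κ‖ = ‖(κ - e j 1) + e j 1‖ := by rw [sub_add_cancel]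
      _ ≤ ‖κ - e j 1‖ + ‖e j 1‖ := norm_add_le _ _
      _ < 1 + τ := by linarith
  refine ⟨δ, UniformSpace.Completion (NN Q ⧸ D), inferInstance, e, hδ, inferInstance, ?_, ?_,
    hbd, ?_, hK2⟩
  · exact hqdense.separableSpace hqcont
  · refine ⟨⟨q (NN.sg Q 0 (1 / 4)), 0, fun h => ?_⟩⟩
    have h1 : ‖(QuotientAddGroup.mk (NN.sg Q 0 (1 / 4)) : NN Q ⧸ D)‖ < 1 / 8 := by
      rw [← hqn, h, norm_zero]; norm_num
    obtain ⟨b, hb, hbn⟩ := QuotientAddGroup.norm_lt_iff.mp h1
    have h2 : NN.sg Q 0 (1 / 4) - b ∈ D := by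
      have := QuotientAddGroup.eq.mp hb
      rwa [neg_add_eq_sub] at this
    have h3 : ‖NN.sg Q 0 (1 / 4) - b‖ < 1 / 2 := by
      have h4 := norm_sg_le Q 0 (1 / 4)
      rw [abs_of_pos (by norm_num : (0 : ℝ) < 1 / 4)] at h4
      calc ‖NN.sg Q 0 (1 / 4) - b‖ ≤ ‖NN.sg Q 0 (1 / 4)‖ + ‖b‖ := norm_sub_le _ _
        _ < 1 / 2 := by linarith
    have h5 := hD _ h2 h3
    rw [NN.co_sub, NN.co_sg, if_pos rfl] at h5
    have h6 := co_le_norm Q b 0
    have h7 := (abs_le.mp h5).2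
    have h8 := (abs_le.mp h6).2
    linarith
  · intro S J hJ b C h
    have h1 : ∑ k ∈ S, e (J k) (b k) = q (∑ k ∈ S, NN.sg Q (J k) (b k)) := by
      rw [map_sum]; rfl
    rw [h1]
    exact (hqle _).trans (norm_sum_sg_le Q hJ b h)

end Run7.h376
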