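import Pool.Agent.Run7.h376.Dither

/-!
# The subgroup of integer-valued functions in `L²[0,1]`
-/

set_option autoImplicit false

namespace Run7.h376

open Filter Topology Metric MeasureTheory Set
open scoped InnerProductSpace ENNReal

theorem real_inner_eq (x y : ℝ) : ⟪x, y⟫_ℝ = x * y := by
  simp [mul_comm]

/-- The classes of integer-valued functions in `L²[0,1]`. -/
noncomputable def intSub : AddSubgroup (Lp ℝ 2 unitMeas) where
  carrier := {f | ∀ᵐ t ∂unitMeas, ∃ n : ℤ, f t = n}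
  zero_mem' := by
    show ∀ᵐ t ∂unitMeas, ∃ n : ℤ, (0 : Lp ℝ 2 unitMeas) t = n
    filter_upwards [Lp.coeFn_zero ℝ 2 unitMeas] with t ht
    exact ⟨0, by rw [ht]; simp⟩
  add_mem' := by
    intro f g hf hg
    show ∀ᵐ t ∂unitMeas, ∃ n : ℤ, (f + g) t = n
    have hf' : ∀ᵐ t ∂unitMeas, ∃ n : ℤ, f t = n := hf
    have hg' : ∀ᵐ t ∂unitMeas, ∃ n : ℤ, g t = n := hg
    filter_upwards [hf', hg', Lp.coeFn_add f g] with t h1 h2 h3
    obtain ⟨n, hn⟩ := h1
    obtain ⟨m, hm⟩ := h2
    exact ⟨n + m, by rw [h3, Pi.add_apply, hn, hm]; push_cast; ring⟩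
  neg_mem' := by
    intro f hf
    show ∀ᵐ t ∂unitMeas, ∃ n : ℤ, (-f) t = n
    have hf' : ∀ᵐ t ∂unitMeas, ∃ n : ℤ, f t = n := hf
    filter_upwards [hf', Lp.coeFn_neg f] with t h1 h3
    obtain ⟨n, hn⟩ := h1
    exact ⟨-n, by rw [h3, Pi.neg_apply, hn]; push_cast; ring⟩

theorem mem_intSub (f : Lp ℝ 2 unitMeas) : f ∈ intSub ↔ ∀ᵐ t ∂unitMeas, ∃ n : ℤ, f t = n :=
  Iff.rfl

/-- The distance to the integers. -/
noncomputable def dZ (x : ℝ) : ℝ := |x - round x|

theorem dZ_lip : LipschitzWith 1 dZ := by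
  refine LipschitzWith.of_le_add fun x y => ?_
  unfold dZ
  calc |x - round x| ≤ |x - round y| := round_le x (round y)
    _ = |(y - round y) + (x - y)| := by congr 1; ring
    _ ≤ |y - round y| + |x - y| := abs_add_le _ _
    _ = _ := by rw [Real.dist_eq]

theorem dZ_zero : dZ 0 = 0 := by simp [dZ]

theorem dZ_eq_zero (x : ℝ) : dZ x = 0 ↔ ∃ n : ℤ, x = n := by
  unfold dZ
  constructor
  · intro h
    exact ⟨round x, by rw [abs_eq_zero, sub_eq_zero] at h; exact h⟩
  · rintro ⟨n, rfl⟩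
    simp

theorem isClosed_intSub : IsClosed (intSub : Set (Lp ℝ 2 unitMeas)) := by
  have h : (intSub : Set (Lp ℝ 2 unitMeas)) = (dZ_lip.compLp dZ_zero) ⁻¹' {0} := by
    ext f
    rw [SetLike.mem_coe, mem_intSub, mem_preimage, mem_singleton_iff, Lp.eq_zero_iff_ae_eq_zero]
    have h1 := dZ_lip.coeFn_compLp dZ_zero f
    constructor
    · intro h
      filter_upwards [h, h1] with t h2 h3
      rw [h3, Function.comp_apply, (dZ_eq_zero _).mpr h2, Pi.zero_apply]
    · intro h
      filter_upwards [h, h1] with t h2 h3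
      rw [h3, Function.comp_apply, Pi.zero_apply] at h2
      exact (dZ_eq_zero _).mp h2
  rw [h]
  exact isClosed_singleton.preimage (dZ_lip.continuous_compLp dZ_zero)

theorem integral_abs_le_norm (u : Lp ℝ 2 unitMeas) : ∫ t, |u t| ∂unitMeas ≤ ‖u‖ := by
  have h1 : ∫ t, |u t| ∂unitMeas = (eLpNorm u 1 unitMeas).toReal := by
    rw [eLpNorm_one_eq_lintegral_enorm, ← integral_norm_eq_lintegral_enorm
      (Lp.aestronglyMeasurable u)]
    rfl
  rw [h1, Lp.norm_def]
  exact ENNReal.toReal_mono (Lp.eLpNorm_ne_top u)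
    (eLpNorm_le_eLpNorm_of_exponent_le (by norm_num) (Lp.aestronglyMeasurable u))

/-- A finite family of simple functions as a simple function into a product. -/
noncomputable def jointSimple {ι : Type*} [Finite ι] (s : ι → SimpleFunc ℝ ℝ) :
    SimpleFunc ℝ (ι → ℝ) where
  toFun t i := s i t
  measurableSet_fiber' x := by
    have : (fun t => fun i => s i t) ⁻¹' {x} = ⋂ i, (s i) ⁻¹' {x i} := by
      ext t
      simp only [mem_preimage, mem_singleton_iff, mem_iInter, funext_iff]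
    rw [this]
    exact MeasurableSet.iInter fun i => (s i).measurableSet_fiber (x i)
  finite_range' := by
    refine (Set.Finite.pi (t := fun i => range (s i)) fun i => (s i).finite_range).subset ?_
    rintro _ ⟨t, rfl⟩ i -
    exact ⟨t, rfl⟩

theorem jointSimple_apply {ι : Type*} [Finite ι] (s : ι → SimpleFunc ℝ ℝ) (t : ℝ) (i : ι) :
    jointSimple s t i = s i t := rfl

end Run7.h376
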