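import Pool.Agent.Run7.h376.Gram

/-!
# The operator attached to two almost orthogonal sequences
-/

set_option autoImplicit false

namespace Run7.h376

open Filter Topology Metric
open scoped InnerProductSpace

theorem exists_operator {E F N : Type*} [NormedAddCommGroup E] [NormedSpace ℝ E]
    [NormedAddCommGroup F] [InnerProductSpace ℝ F]
    [NormedAddCommGroup N] [InnerProductSpace ℝ N] [CompleteSpace N]
    (T : E →L[ℝ] F) (c : ℝ) (hc : 0 < c) (y : ℕ → E) (hyc : ∀ k, c ≤ ‖T (y k)‖)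
    (hyo : ∀ j k, j ≠ k → |⟪T (y j), T (y k)⟫_ℝ| ≤ c ^ 2 * ((1 / 2) ^ (j + 1) * (1 / 2) ^ (k + 1)))
    (g : ℕ → N) (hg : AO g) :
    ∃ A : E →L[ℝ] N, ∀ k, ‖A (y k) - g k‖ ≤ (1 / 2) ^ (k + 1) := by
  classical
  have hpos : ∀ k, 0 < ‖T (y k)‖ := fun k => hc.trans_le (hyc k)
  let a : ℕ → F := fun k => ‖T (y k)‖⁻¹ • T (y k)
  have hkey : ∀ j k, j ≠ k →
      |‖T (y j)‖⁻¹ * (‖T (y k)‖⁻¹ * ⟪T (y j), T (y k)⟫_ℝ)| ≤
        (1 / 2) ^ (j + 1) * (1 / 2) ^ (k + 1) := by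
    intro j k hjk
    rw [abs_mul, abs_mul, abs_of_pos (inv_pos.mpr (hpos j)), abs_of_pos (inv_pos.mpr (hpos k))]
    have h1 : ‖T (y j)‖⁻¹ ≤ c⁻¹ := inv_anti₀ hc (hyc j)
    have h2 : ‖T (y k)‖⁻¹ ≤ c⁻¹ := inv_anti₀ hc (hyc k)
    have hci : 0 < c⁻¹ := inv_pos.mpr hc
    calc ‖T (y j)‖⁻¹ * (‖T (y k)‖⁻¹ * |⟪T (y j), T (y k)⟫_ℝ|)
        ≤ c⁻¹ * (c⁻¹ * (c ^ 2 * ((1 / 2) ^ (j + 1) * (1 / 2) ^ (k + 1)))) := by
          refine mul_le_mul h1 (mul_le_mul h2 (hyo j k hjk) (abs_nonneg _) hci.le) ?_ hci.le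
          exact mul_nonneg (inv_pos.mpr (hpos k)).le (abs_nonneg _)
      _ = (c⁻¹ * c) * (c⁻¹ * c) * ((1 / 2) ^ (j + 1) * (1 / 2) ^ (k + 1)) := by ring
      _ = _ := by rw [inv_mul_cancel₀ hc.ne']; ring
  have ha : AO a := by
    refine ⟨fun k => ?_, fun j k hjk => ?_⟩
    · simp only [a]
      rw [norm_smul, norm_inv, norm_norm, inv_mul_cancel₀ (hpos k).ne']
    · simp only [a]
      rw [real_inner_smul_left, real_inner_smul_right]
      exact hkey j k hjk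
  let co : ℕ → E → ℝ := fun k x => ‖T (y k)‖⁻¹ * ⟪T x, a k⟫_ℝ
  have hco_add : ∀ k x x', co k (x + x') = co k x + co k x' := by
    intro k x x'
    simp only [co]
    rw [map_add, inner_add_left, mul_add]
  have hco_smul : ∀ k (s : ℝ) x, co k (s • x) = s * co k x := by
    intro k s x
    simp only [co]
    rw [map_smul, real_inner_smul_left]; ring
  have hbound : ∀ x (t : Finset ℕ), ∑ k ∈ t, (co k x) ^ 2 ≤ 2 * (c⁻¹ * ‖T x‖) ^ 2 := by
    intro x t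
    calc ∑ k ∈ t, (co k x) ^ 2 ≤ ∑ k ∈ t, c⁻¹ ^ 2 * ⟪T x, a k⟫_ℝ ^ 2 := by
          refine Finset.sum_le_sum fun k _ => ?_
          simp only [co]
          rw [mul_pow]
          refine mul_le_mul_of_nonneg_right ?_ (sq_nonneg _)
          exact pow_le_pow_left₀ (inv_pos.mpr (hpos k)).le (inv_anti₀ hc (hyc k)) 2
      _ = c⁻¹ ^ 2 * ∑ k ∈ t, ⟪T x, a k⟫_ℝ ^ 2 := by rw [Finset.mul_sum]
      _ ≤ c⁻¹ ^ 2 * (2 * ‖T x‖ ^ 2) :=
          mul_le_mul_of_nonneg_left (ha.bessel t (T x)) (sq_nonneg _)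
      _ = _ := by ring
  have hsum : ∀ x, Summable fun k => (co k x) ^ 2 := fun x =>
    summable_of_sum_le (fun _ => sq_nonneg _) (hbound x)
  have htsum : ∀ x, ∑' k, (co k x) ^ 2 ≤ 2 * (c⁻¹ * ‖T x‖) ^ 2 := fun x =>
    (hsum x).tsum_le_of_sum_le (hbound x)
  have hsm : ∀ x, Summable fun k => co k x • g k := fun x => hg.summable (hsum x)
  let L : E →ₗ[ℝ] N :=
    { toFun := fun x => ∑' k, co k x • g k
      map_add' := by
        intro x x'
        rw [← (hsm x).tsum_add (hsm x')]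
        refine tsum_congr fun k => ?_
        rw [hco_add, add_smul]
      map_smul' := by
        intro s x
        rw [RingHom.id_apply, ← (hsm x).tsum_const_smul s]
        refine tsum_congr fun k => ?_
        rw [hco_smul, mul_smul] }
  have hL : ∀ x, ‖L x‖ ≤ (2 * c⁻¹ * ‖T‖) * ‖x‖ := by
    intro x
    have h1 : ‖L x‖ ^ 2 ≤ 2 * ∑' k, (co k x) ^ 2 := hg.norm_tsum_sq (hsum x)
    have h2 := htsum x
    have h3 : ‖L x‖ ^ 2 ≤ (2 * (c⁻¹ * ‖T x‖)) ^ 2 := by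
      rw [mul_pow 2]
      linarith
    have hci : 0 < c⁻¹ := inv_pos.mpr hc
    have h4 : ‖L x‖ ≤ 2 * (c⁻¹ * ‖T x‖) := by
      refine le_of_sq_le_sq h3 (by positivity) |> fun h => h
    calc ‖L x‖ ≤ 2 * (c⁻¹ * ‖T x‖) := h4
      _ ≤ 2 * (c⁻¹ * (‖T‖ * ‖x‖)) := by
          have := T.le_opNorm x
          gcongr
      _ = _ := by ring
  refine ⟨L.mkContinuous _ hL, fun k => ?_⟩
  have hcokk : co k (y k) = 1 := by
    simp only [co, a]
    rw [real_inner_smul_right, real_inner_self_eq_norm_sq]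
    have := (hpos k).ne'
    field_simp
  have h1 : HasSum (fun j => co j (y k) • g j) (L (y k)) := (hsm (y k)).hasSum
  have h2 : HasSum (fun j => if j = k then g k else 0) (g k) := hasSum_ite_eq k (g k)
  have h3 := h1.sub h2
  have h4 : HasSum (fun j : ℕ => (1 / 2 : ℝ) ^ (j + 1) * (1 / 2) ^ (k + 1))
      (1 * (1 / 2) ^ (k + 1)) := geo_sum.mul_right _
  rw [one_mul] at h4
  have h5 : ∀ j, ‖co j (y k) • g j - (if j = k then g k else 0)‖ ≤
      (1 / 2 : ℝ) ^ (j + 1) * (1 / 2) ^ (k + 1) := by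
    intro j
    by_cases hjk : j = k
    · subst hjk
      rw [if_pos rfl, hcokk, one_smul, sub_self, norm_zero]
      positivity
    · rw [if_neg hjk, sub_zero, norm_smul]
      have h6 : ‖co j (y k)‖ ≤ (1 / 2) ^ (j + 1) * (1 / 2) ^ (k + 1) := by
        rw [Real.norm_eq_abs]
        have h7 : co j (y k) = ‖T (y j)‖⁻¹ * (‖T (y j)‖⁻¹ * ⟪T (y k), T (y j)⟫_ℝ) := by
          simp only [co, a]
          rw [real_inner_smul_right]
        rw [h7, abs_mul, abs_mul, abs_of_pos (inv_pos.mpr (hpos j))]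
        have h1 : ‖T (y j)‖⁻¹ ≤ c⁻¹ := inv_anti₀ hc (hyc j)
        have hci : 0 < c⁻¹ := inv_pos.mpr hc
        calc ‖T (y j)‖⁻¹ * (‖T (y j)‖⁻¹ * |⟪T (y k), T (y j)⟫_ℝ|)
            ≤ c⁻¹ * (c⁻¹ * (c ^ 2 * ((1 / 2) ^ (k + 1) * (1 / 2) ^ (j + 1)))) := by
              refine mul_le_mul h1 (mul_le_mul h1 (hyo k j (Ne.symm hjk)) (abs_nonneg _) hci.le)
                ?_ hci.le
              exact mul_nonneg (inv_pos.mpr (hpos j)).le (abs_nonneg _)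
          _ = (c⁻¹ * c) * (c⁻¹ * c) * ((1 / 2) ^ (j + 1) * (1 / 2) ^ (k + 1)) := by ring
          _ = _ := by rw [inv_mul_cancel₀ hc.ne']; ring
      calc ‖co j (y k)‖ * ‖g j‖ ≤ ((1 / 2) ^ (j + 1) * (1 / 2) ^ (k + 1)) * 1 :=
            mul_le_mul h6 (hg.1 j) (norm_nonneg _) (by positivity)
        _ = _ := mul_one _
  exact h3.norm_le_of_bounded h4 h5

end Run7.h376
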