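import Mathlib

/-!
# Almost orthogonal images of bounded sequences under a noncompact operator
-/

set_option autoImplicit false

namespace Run7.h376

open Filter Topology Metric
open scoped InnerProductSpace

theorem exists_sel {E F : Type*} [NormedAddCommGroup E] [NormedSpace ℝ E]
    [NormedAddCommGroup F] [InnerProductSpace ℝ F] [CompleteSpace F]
    (T : E →L[ℝ] F) (hT : ¬ IsCompactOperator T) :
    ∃ c > 0, ∀ S : Set F, S.Finite → ∀ η > 0,
      ∃ y : E, ‖y‖ ≤ 2 ∧ c ≤ ‖T y‖ ∧ ∀ v ∈ S, |⟪v, T y⟫_ℝ| ≤ η := by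
  classical
  have h1 : ¬ TotallyBounded (T '' closedBall (0 : E) 1) := by
    intro h
    apply hT
    have h2 : IsCompact (closure (T '' closedBall (0 : E) 1)) :=
      h.closure.isCompact_of_isClosed isClosed_closure
    exact (isCompactOperator_iff_isCompact_closure_image_closedBall
      (T : E →ₛₗ[RingHom.id ℝ] F) one_pos).mpr h2
  rw [Metric.totallyBounded_iff] at h1
  push Not at h1
  obtain ⟨c, hc, hcov⟩ := h1
  refine ⟨c, hc, fun S hS η hη => ?_⟩
  by_contra hcon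
  push Not at hcon
  have := hS.fintype
  let Φ : F → (S → ℝ) := fun z v => ⟪(v : F), z⟫_ℝ
  have hΦ : Continuous Φ := by
    refine continuous_pi fun v => ?_
    exact continuous_const.inner continuous_id
  have hbd : Bornology.IsBounded (Φ '' (T '' closedBall (0 : E) 1)) := by
    rw [isBounded_iff_forall_norm_le]
    refine ⟨∑ v : S, ‖(v : F)‖ * (‖T‖ * 1), ?_⟩
    rintro _ ⟨_, ⟨x, hx, rfl⟩, rfl⟩
    have hx' : ‖x‖ ≤ 1 := by simpa using hx
    have hTx : ‖T x‖ ≤ ‖T‖ * 1 :=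
      (T.le_opNorm x).trans (mul_le_mul_of_nonneg_left hx' (norm_nonneg _))
    rw [pi_norm_le_iff_of_nonneg (Finset.sum_nonneg fun _ _ => by positivity)]
    intro v
    have h3 : ‖Φ (T x) v‖ ≤ ‖(v : F)‖ * (‖T‖ * 1) :=
      (norm_inner_le_norm (𝕜 := ℝ) (v : F) (T x)).trans
        (mul_le_mul_of_nonneg_left hTx (norm_nonneg _))
    refine h3.trans ?_
    exact Finset.single_le_sum (f := fun v : S => ‖(v : F)‖ * (‖T‖ * 1))
      (fun _ _ => by positivity) (Finset.mem_univ v)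
  have htb : TotallyBounded (Φ '' (T '' closedBall (0 : E) 1)) :=
    (Bornology.IsBounded.isCompact_closure hbd).totallyBounded.subset subset_closure
  obtain ⟨t, hts, htf, htc⟩ := Metric.finite_approx_of_totallyBounded htb η hη
  have hch : ∀ p ∈ t, ∃ x : E, ‖x‖ ≤ 1 ∧ Φ (T x) = p := by
    intro p hp
    obtain ⟨_, ⟨x, hx, rfl⟩, hx2⟩ := hts hp
    exact ⟨x, by simpa using hx, hx2⟩
  choose! X hX using hch
  refine hcov ((fun p => T (X p)) '' t) (htf.image _) ?_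
  rintro _ ⟨x, hx, rfl⟩
  have hx' : ‖x‖ ≤ 1 := by simpa using hx
  have h4 : Φ (T x) ∈ ⋃ y ∈ t, ball y η := htc ⟨_, ⟨x, hx, rfl⟩, rfl⟩
  simp only [Set.mem_iUnion] at h4
  obtain ⟨p, hp, hxp⟩ := h4
  simp only [Set.mem_iUnion]
  refine ⟨T (X p), ⟨p, hp, rfl⟩, ?_⟩
  rw [mem_ball, dist_eq_norm, ← map_sub]
  by_contra hnot
  push Not at hnot
  have hy : ‖x - X p‖ ≤ 2 := by
    have := (hX p hp).1
    calc ‖x - X p‖ ≤ ‖x‖ + ‖X p‖ := norm_sub_le _ _
      _ ≤ 2 := by linarith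
  obtain ⟨v, hv, hlt⟩ := hcon (x - X p) hy hnot
  rw [mem_ball, ← (hX p hp).2, dist_pi_lt_iff hη] at hxp
  have h5 := hxp ⟨v, hv⟩
  rw [Real.dist_eq] at h5
  have h6 : ⟪v, T (x - X p)⟫_ℝ = Φ (T x) ⟨v, hv⟩ - Φ (T (X p)) ⟨v, hv⟩ := by
    simp only [Φ]
    rw [map_sub, inner_sub_right]
  rw [h6] at hlt
  linarith

end Run7.h376
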