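import Pool.Agent.Run7.h376.Core
import Pool.Agent.Run7.h376.Sel
import Pool.Agent.Run7.h376.Oper

/-!
# The abstract theorem
-/

set_option autoImplicit false

namespace Run7.h376

open Filter Topology Metric
open scoped InnerProductSpace

theorem open_surj {E G : Type*} [NormedAddCommGroup E] [CompleteSpace E]
    [NormedAddCommGroup G] (Q : E →+ G) (hQ : Continuous Q)
    (hdiv : ∀ (g : G) (r : ℝ), 0 < r → ∃ (M : ℕ) (g' : G), ‖g'‖ < r ∧ M • g' = g) (C : ℝ)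
    (δ : ℕ → ℝ) (hδ0 : ∀ n, 0 < δ n) (hδ : Tendsto δ atTop (𝓝 0))
    (h : ∀ n (g : G), ‖g‖ < δ n → ∀ τ > 0, ∃ y, ‖y‖ ≤ C * (1 / 2) ^ n ∧ ‖g - Q y‖ < τ) :
    Function.Surjective Q ∧ IsOpenMap Q := by
  have hpre := exists_preimage Q hQ C δ hδ0 hδ h
  refine ⟨fun g => ?_, ?_⟩
  · obtain ⟨M, g', hg', rfl⟩ := hdiv g (δ 0) (hδ0 0)
    obtain ⟨y, -, hy⟩ := hpre 0 g' hg'
    exact ⟨M • y, by rw [map_nsmul, hy]⟩
  · refine IsTopologicalAddGroup.isOpenMap_iff_nhds_zero.mpr ?_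
    intro s hs
    rw [Filter.mem_map] at hs
    obtain ⟨ρ, hρ, hρs⟩ := Metric.mem_nhds_iff.mp hs
    have hlim : Tendsto (fun n : ℕ => 2 * (C * (1 / 2 : ℝ) ^ n)) atTop (𝓝 (2 * (C * 0))) :=
      ((tendsto_pow_atTop_nhds_zero_of_lt_one (by norm_num) (by norm_num)).const_mul C).const_mul 2
    rw [mul_zero, mul_zero] at hlim
    obtain ⟨n, hn⟩ := (hlim.eventually (gt_mem_nhds hρ)).exists
    refine Metric.mem_nhds_iff.mpr ⟨δ n, hδ0 n, ?_⟩
    intro g hg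
    rw [mem_ball_zero_iff] at hg
    obtain ⟨y, hy, rfl⟩ := hpre n g hg
    have : y ∈ ball (0 : E) ρ := by
      rw [mem_ball_zero_iff]; exact hy.trans_lt hn
    exact hρs this

theorem exists_quotient {E F N : Type*} [NormedAddCommGroup E] [NormedSpace ℝ E] [CompleteSpace E]
    [NormedAddCommGroup F] [InnerProductSpace ℝ F] [CompleteSpace F]
    [NormedAddCommGroup N] [InnerProductSpace ℝ N] [CompleteSpace N]
    [TopologicalSpace.SeparableSpace N]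
    (T : E →L[ℝ] F) (hT : ¬ IsCompactOperator T)
    (D : AddSubgroup N) (hD : IsClosed (D : Set N))
    (hW : ∀ ε > 0, ∃ δ > 0, ∀ u : N, ‖u‖ < δ → ∀ S : Set N, S.Finite → ∀ η > 0,
      ∃ h ∈ D, ‖u + h‖ ≤ ε ∧ ∀ v ∈ S, |⟪v, u + h⟫_ℝ| ≤ η) :
    ∃ H : AddSubgroup E, IsClosed (H : Set E) ∧ Nonempty ((E ⧸ H) ≃ₜ+ (N ⧸ D)) := by
  classical
  obtain ⟨c, hc, hsel⟩ := exists_sel T hT
  -- the vectors in `E`
  obtain ⟨y, hy⟩ := exists_seq (fun _ y => ‖y‖ ≤ 2 ∧ c ≤ ‖T y‖)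
    (fun k x y => |⟪T x, T y⟫_ℝ| ≤ c ^ 2 * ((1 / 2) ^ (k + 1) * (1 / 2) ^ (k + 1)))
    (by
      intro k s hs
      obtain ⟨y, hy1, hy2, hy3⟩ := hsel (T '' s) (hs.image _)
        (c ^ 2 * ((1 / 2) ^ (k + 1) * (1 / 2) ^ (k + 1))) (by positivity)
      exact ⟨y, ⟨hy1, hy2⟩, fun x hx => hy3 _ ⟨x, hx, rfl⟩⟩)
  have hmono : ∀ j k : ℕ, j < k → (1 / 2 : ℝ) ^ (k + 1) ≤ (1 / 2) ^ (j + 1) := fun j k hjk =>
    pow_le_pow_of_le_one (by norm_num) (by norm_num) (by omega)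
  have hyo : ∀ j k, j ≠ k →
      |⟪T (y j), T (y k)⟫_ℝ| ≤ c ^ 2 * ((1 / 2) ^ (j + 1) * (1 / 2) ^ (k + 1)) := by
    intro j k hjk
    rcases lt_or_gt_of_ne hjk with h | h
    · refine ((hy k).2 j h).trans ?_
      have := hmono j k h
      gcongr
    · rw [real_inner_comm]
      refine ((hy j).2 k h).trans ?_
      have := hmono k j h
      gcongr
  -- the vectors in `N`
  have hWn : ∀ n : ℕ, ∃ δ > 0, ∀ u : N, ‖u‖ < δ → ∀ S : Set N, S.Finite → ∀ η > 0,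
      ∃ h ∈ D, ‖u + h‖ ≤ (1 / 2 : ℝ) ^ n ∧ ∀ v ∈ S, |⟪v, u + h⟫_ℝ| ≤ η :=
    fun n => hW _ (by positivity)
  choose δ' hδ'0 hδ' using hWn
  let δ : ℕ → ℝ := fun n => min (δ' n) ((1 / 2) ^ n)
  have hδ0 : ∀ n, 0 < δ n := fun n => lt_min (hδ'0 n) (by positivity)
  have hδlim : Tendsto δ atTop (𝓝 0) := by
    refine squeeze_zero (fun n => (hδ0 n).le) (fun n => min_le_right _ _) ?_
    exact tendsto_pow_atTop_nhds_zero_of_lt_one (by norm_num) (by norm_num)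
  let u : ℕ → N := TopologicalSpace.denseSeq N
  let pn : ℕ → ℕ := fun k => (Nat.unpair (Nat.unpair k).1).1
  let pi : ℕ → ℕ := fun k => (Nat.unpair (Nat.unpair k).1).2
  obtain ⟨g, hg⟩ := exists_seq
    (fun k g => ‖g‖ ≤ 1 ∧ (‖u (pi k)‖ < δ (pn k) →
      ∃ h ∈ D, (1 / 2 : ℝ) ^ (pn k) • g = u (pi k) + h))
    (fun k x y => |⟪x, y⟫_ℝ| ≤ (1 / 2) ^ (k + 1) * (1 / 2) ^ (k + 1))
    (by
      intro k s hs
      by_cases hk : ‖u (pi k)‖ < δ (pn k)
      · obtain ⟨h, hhD, hh1, hh2⟩ := hδ' (pn k) (u (pi k)) (hk.trans_le (min_le_left _ _)) s hs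
          ((1 / 2) ^ (pn k) * ((1 / 2) ^ (k + 1) * (1 / 2) ^ (k + 1))) (by positivity)
        have hp : (0 : ℝ) < (1 / 2) ^ (pn k) := by positivity
        refine ⟨((1 / 2 : ℝ) ^ (pn k))⁻¹ • (u (pi k) + h), ⟨?_, fun _ => ⟨h, hhD, ?_⟩⟩, ?_⟩
        · rw [norm_smul, norm_inv, Real.norm_of_nonneg hp.le]
          rw [inv_mul_le_iff₀ hp, mul_one]
          exact hh1
        · rw [smul_smul, mul_inv_cancel₀ hp.ne', one_smul]
        · intro x hx
          rw [real_inner_smul_right, abs_mul, abs_inv, abs_of_pos hp, inv_mul_le_iff₀ hp]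
          exact hh2 x hx
      · refine ⟨0, ⟨by simp, fun h => absurd h hk⟩, fun x _ => ?_⟩
        rw [inner_zero_right, abs_zero]
        positivity)
  have hgAO : AO g := by
    refine ⟨fun k => (hg k).1.1, fun j k hjk => ?_⟩
    rcases lt_or_gt_of_ne hjk with h | h
    · refine ((hg k).2 j h).trans ?_
      have := hmono j k h
      gcongr
    · rw [real_inner_comm]
      refine ((hg j).2 k h).trans ?_
      have := hmono k j h
      gcongr
  obtain ⟨A, hA⟩ := exists_operator T c hc y (fun k => (hy k).1.2) hyo g hgAO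
  have : IsClosed (D : Set N) := hD
  let Q : E →+ N ⧸ D := (QuotientAddGroup.mk' D).comp (A : E →+ N)
  have hQcont : Continuous Q := QuotientAddGroup.continuous_mk.comp A.continuous
  have hQapply : ∀ x, Q x = QuotientAddGroup.mk (A x) := fun x => rfl
  have hmain : ∀ n (g : N ⧸ D), ‖g‖ < δ n → ∀ τ > 0,
      ∃ y, ‖y‖ ≤ 2 * (1 / 2) ^ n ∧ ‖g - Q y‖ < τ := by
    intro n p hp τ hτ
    obtain ⟨v, rfl, hv⟩ := QuotientAddGroup.norm_lt_iff.mp hp
    -- approximate by a dense sequence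
    have hopen : IsOpen (ball (0 : N) (δ n) ∩ ball v (τ / 2)) := isOpen_ball.inter isOpen_ball
    have hne : (ball (0 : N) (δ n) ∩ ball v (τ / 2)).Nonempty :=
      ⟨v, by rwa [mem_ball_zero_iff], mem_ball_self (by positivity)⟩
    obtain ⟨z, hz, ⟨i, rfl⟩⟩ := (TopologicalSpace.denseRange_denseSeq N).inter_open_nonempty _
      hopen hne
    have hi1 : ‖u i‖ < δ n := by simpa using hz.1
    have hi2 : ‖u i - v‖ < τ / 2 := by
      have := hz.2
      rwa [mem_ball, dist_eq_norm] at this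
    -- choose a large index
    have hlim : Tendsto (fun m : ℕ => (1 / 2 : ℝ) ^ (m + 1)) atTop (𝓝 0) :=
      (tendsto_pow_atTop_nhds_zero_of_lt_one (by norm_num) (by norm_num)).comp
        (tendsto_add_atTop_nat 1)
    obtain ⟨m, hm⟩ := (hlim.eventually (gt_mem_nhds (half_pos hτ))).exists
    set k := Nat.pair (Nat.pair n i) m with hk
    have hpn : pn k = n := by simp [pn, hk]
    have hpi : pi k = i := by simp [pi, hk]
    have hkm : m ≤ k := Nat.right_le_pair _ _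
    have hk2 : (1 / 2 : ℝ) ^ (k + 1) < τ / 2 := by
      refine lt_of_le_of_lt (pow_le_pow_of_le_one (by norm_num) (by norm_num) ?_) hm
      omega
    obtain ⟨h, hhD, hh⟩ := (hg k).1.2 (by rw [hpi, hpn]; exact hi1)
    rw [hpn, hpi] at hh
    refine ⟨(1 / 2 : ℝ) ^ n • y k, ?_, ?_⟩
    · rw [norm_smul, Real.norm_of_nonneg (by positivity), mul_comm]
      exact mul_le_mul_of_nonneg_right (hy k).1.1 (by positivity)
    · rw [hQapply, map_smul]
      have e1 : (QuotientAddGroup.mk v : N ⧸ D) - QuotientAddGroup.mk ((1 / 2 : ℝ) ^ n • A (y k)) =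
          QuotientAddGroup.mk ((v - u i) - (1 / 2 : ℝ) ^ n • (A (y k) - g k)) := by
        rw [← QuotientAddGroup.mk_sub, QuotientAddGroup.eq]
        rw [smul_sub, hh]
        have : -(v - (1 / 2 : ℝ) ^ n • A (y k)) +
            (v - u i - ((1 / 2 : ℝ) ^ n • A (y k) - (u i + h))) = h := by abel
        rw [this]
        exact hhD
      rw [e1]
      refine lt_of_le_of_lt QuotientAddGroup.norm_mk_le_norm ?_
      have h1 : ‖(1 / 2 : ℝ) ^ n • (A (y k) - g k)‖ ≤ (1 / 2) ^ (k + 1) := by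
        rw [norm_smul, Real.norm_of_nonneg (by positivity)]
        have h2 : (1 / 2 : ℝ) ^ n ≤ 1 := pow_le_one₀ (by norm_num) (by norm_num)
        calc (1 / 2 : ℝ) ^ n * ‖A (y k) - g k‖ ≤ 1 * (1 / 2) ^ (k + 1) :=
              mul_le_mul h2 (hA k) (norm_nonneg _) zero_le_one
          _ = _ := one_mul _
      calc ‖(v - u i) - (1 / 2 : ℝ) ^ n • (A (y k) - g k)‖
          ≤ ‖v - u i‖ + ‖(1 / 2 : ℝ) ^ n • (A (y k) - g k)‖ := norm_sub_le _ _
        _ < τ / 2 + τ / 2 := by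
            rw [norm_sub_rev v (u i)]
            linarith
        _ = τ := by ring
  have hdiv : ∀ (p : N ⧸ D) (r : ℝ), 0 < r → ∃ (M : ℕ) (p' : N ⧸ D), ‖p'‖ < r ∧ M • p' = p := by
    intro p r hr
    obtain ⟨v, rfl⟩ := QuotientAddGroup.mk_surjective p
    obtain ⟨M, hM⟩ := exists_nat_gt (‖v‖ / r)
    have hM0 : (0 : ℝ) < M := lt_of_le_of_lt (by positivity) hM
    refine ⟨M, QuotientAddGroup.mk ((M : ℝ)⁻¹ • v), ?_, ?_⟩
    · refine lt_of_le_of_lt QuotientAddGroup.norm_mk_le_norm ?_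
      rw [norm_smul, norm_inv, Real.norm_of_nonneg hM0.le, inv_mul_lt_iff₀ hM0]
      rwa [div_lt_iff₀ hr] at hM
    · rw [← QuotientAddGroup.mk_nsmul]
      congr 1
      rw [← Nat.cast_smul_eq_nsmul ℝ, smul_smul, mul_inv_cancel₀ hM0.ne', one_smul]
  obtain ⟨hs, ho⟩ := open_surj Q hQcont hdiv 2 δ hδ0 hδlim hmain
  exact exists_iso Q hQcont hs ho

end Run7.h376
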