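import Mathlib

/-!
# A symmetric seminorm on finitely supported sequences
-/

set_option autoImplicit false

namespace Run7.h376

open Filter Topology Metric

/-- Parameters: a sequence of integers `L` with `L 0 = 1` and `2 ^ i ≤ L i`. -/
structure LSeq where
  /-- the sequence -/
  L : ℕ → ℕ
  zero : L 0 = 1
  le : ∀ i, 2 ^ i ≤ L i

/-- Finitely supported real sequences. -/
def NN (_ : LSeq) : Type := ℕ →₀ ℝ

variable (Q : LSeq)

noncomputable instance : AddCommGroup (NN Q) := inferInstanceAs (AddCommGroup (ℕ →₀ ℝ))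

/-- The coordinates of a finitely supported sequence. -/
def NN.co {Q : LSeq} (b : NN Q) (j : ℕ) : ℝ := (show ℕ →₀ ℝ from b) j

/-- The multiples of the basis vectors. -/
noncomputable def NN.sg (Q : LSeq) (j : ℕ) : ℝ →+ NN Q := Finsupp.singleAddHom j

theorem NN.co_add {Q : LSeq} (b b' : NN Q) (j : ℕ) : (b + b').co j = b.co j + b'.co j := rfl

theorem NN.co_zero {Q : LSeq} (j : ℕ) : (0 : NN Q).co j = 0 := rfl

theorem NN.co_neg {Q : LSeq} (b : NN Q) (j : ℕ) : (-b).co j = -b.co j := rfl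

theorem NN.co_sub {Q : LSeq} (b b' : NN Q) (j : ℕ) : (b - b').co j = b.co j - b'.co j := rfl

theorem NN.co_sg {Q : LSeq} (j : ℕ) (s : ℝ) (i : ℕ) :
    (NN.sg Q j s).co i = if j = i then s else 0 := by
  unfold NN.co NN.sg
  exact Finsupp.single_apply

/-- The coordinates as an additive map. -/
def NN.coHom (Q : LSeq) (j : ℕ) : NN Q →+ ℝ where
  toFun b := b.co j
  map_zero' := rfl
  map_add' _ _ := rfl

theorem NN.coHom_apply {Q : LSeq} (j : ℕ) (b : NN Q) : NN.coHom Q j b = b.co j := rfl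

/-- The finite sets that enter the seminorm. -/
def Idx (Q : LSeq) : Type := {q : ℕ × Finset ℕ // q.2.card ≤ Q.L q.1}

instance : Nonempty (Idx Q) := ⟨⟨(0, ∅), by simp⟩⟩

/-- The averages that enter the seminorm. -/
noncomputable def avg (b : NN Q) (q : Idx Q) : ℝ :=
  (2 ^ q.1.1 / Q.L q.1.1) * ∑ j ∈ q.1.2, |b.co j|

theorem coef_pos (i : ℕ) : (0 : ℝ) < 2 ^ i / Q.L i := by
  have h : (0 : ℝ) < Q.L i := by
    have := Q.le i
    have h2 : 0 < 2 ^ i := by positivity
    exact_mod_cast lt_of_lt_of_le h2 this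
  positivity

theorem L_pos (i : ℕ) : (0 : ℝ) < Q.L i := by
  have := Q.le i
  have h2 : 0 < 2 ^ i := by positivity
  exact_mod_cast lt_of_lt_of_le h2 this

theorem coef_le_one (i : ℕ) : (2 : ℝ) ^ i / Q.L i ≤ 1 := by
  rw [div_le_one (L_pos Q i)]
  exact_mod_cast Q.le i

theorem avg_le (b : NN Q) (q : Idx Q) :
    avg Q b q ≤ ∑ j ∈ (show ℕ →₀ ℝ from b).support, |b.co j| := by
  have h1 : ∑ j ∈ q.1.2, |b.co j| ≤ ∑ j ∈ (show ℕ →₀ ℝ from b).support, |b.co j| := by
    classical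
    calc ∑ j ∈ q.1.2, |b.co j| = ∑ j ∈ q.1.2 ∩ (show ℕ →₀ ℝ from b).support, |b.co j| := by
          symm
          refine Finset.sum_subset Finset.inter_subset_left ?_
          intro j hj hj2
          have : j ∉ (show ℕ →₀ ℝ from b).support := fun h => hj2 (Finset.mem_inter.mpr ⟨hj, h⟩)
          rw [Finsupp.notMem_support_iff] at this
          unfold NN.co
          rw [this, abs_zero]
      _ ≤ _ := Finset.sum_le_sum_of_subset_of_nonneg Finset.inter_subset_right
          fun _ _ _ => abs_nonneg _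
  have h0 : 0 ≤ ∑ j ∈ q.1.2, |b.co j| := Finset.sum_nonneg fun _ _ => abs_nonneg _
  calc avg Q b q ≤ 1 * ∑ j ∈ q.1.2, |b.co j| :=
        mul_le_mul_of_nonneg_right (coef_le_one Q _) h0
    _ ≤ _ := by rw [one_mul]; exact h1

theorem avg_bdd (b : NN Q) : BddAbove (Set.range (avg Q b)) :=
  ⟨_, by rintro _ ⟨q, rfl⟩; exact avg_le Q b q⟩

theorem avg_nonneg (b : NN Q) (q : Idx Q) : 0 ≤ avg Q b q :=
  mul_nonneg (coef_pos Q _).le (Finset.sum_nonneg fun _ _ => abs_nonneg _)

/-- The symmetric seminorm. -/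
noncomputable def pnorm : AddGroupSeminorm (NN Q) where
  toFun b := ⨆ q, avg Q b q
  map_zero' := by
    have : ∀ q, avg Q 0 q = 0 := by
      intro q
      unfold avg
      simp [NN.co_zero]
    simp [this]
  add_le' := by
    intro b b'
    refine ciSup_le fun q => ?_
    have h1 : avg Q (b + b') q ≤ avg Q b q + avg Q b' q := by
      unfold avg
      rw [← mul_add, ← Finset.sum_add_distrib]
      refine mul_le_mul_of_nonneg_left (Finset.sum_le_sum fun j _ => ?_) (coef_pos Q _).le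
      rw [NN.co_add]
      exact abs_add_le _ _
    exact h1.trans (add_le_add (le_ciSup (avg_bdd Q b) q) (le_ciSup (avg_bdd Q b') q))
  neg' := by
    intro b
    have : ∀ q, avg Q (-b) q = avg Q b q := by
      intro q
      unfold avg
      simp [NN.co_neg]
    simp [this]

noncomputable instance : SeminormedAddCommGroup (NN Q) :=
  (pnorm Q).toSeminormedAddCommGroup

theorem norm_eq (b : NN Q) : ‖b‖ = ⨆ q, avg Q b q := rfl

theorem avg_le_norm (b : NN Q) (q : Idx Q) : avg Q b q ≤ ‖b‖ := le_ciSup (avg_bdd Q b) q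

theorem norm_le_of {b : NN Q} {C : ℝ} (h : ∀ q, avg Q b q ≤ C) : ‖b‖ ≤ C := ciSup_le h

theorem sum_le_norm (b : NN Q) (i : ℕ) (A : Finset ℕ) (hA : A.card ≤ Q.L i) :
    ∑ j ∈ A, |b.co j| ≤ (Q.L i / 2 ^ i) * ‖b‖ := by
  have h := avg_le_norm Q b ⟨(i, A), hA⟩
  unfold avg at h
  simp only at h
  have hL := L_pos Q i
  rw [div_mul_eq_mul_div, div_le_iff₀ hL] at h
  rw [div_mul_eq_mul_div, le_div_iff₀ (by positivity)]
  linarith

theorem co_le_norm (b : NN Q) (j : ℕ) : |b.co j| ≤ ‖b‖ := by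
  have h := sum_le_norm Q b 0 {j} (by simp [Q.zero])
  simpa [Q.zero] using h

theorem norm_sg_le (j : ℕ) (s : ℝ) : ‖NN.sg Q j s‖ ≤ |s| := by
  refine norm_le_of Q fun q => ?_
  unfold avg
  have h1 : ∑ i ∈ q.1.2, |(NN.sg Q j s).co i| ≤ |s| := by
    simp_rw [NN.co_sg]
    by_cases hj : j ∈ q.1.2
    · rw [Finset.sum_eq_single j]
      · simp
      · intro i _ hi
        rw [if_neg (Ne.symm hi), abs_zero]
      · intro h; exact absurd hj h
    · rw [Finset.sum_eq_zero]
      · exact abs_nonneg _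
      · intro i hi
        rw [if_neg (by rintro rfl; exact hj hi), abs_zero]
  have h0 : 0 ≤ ∑ i ∈ q.1.2, |(NN.sg Q j s).co i| := Finset.sum_nonneg fun _ _ => abs_nonneg _
  calc (2 : ℝ) ^ q.1.1 / (Q.L q.1.1) * ∑ i ∈ q.1.2, |(NN.sg Q j s).co i|
      ≤ 1 * ∑ i ∈ q.1.2, |(NN.sg Q j s).co i| :=
        mul_le_mul_of_nonneg_right (coef_le_one Q _) h0
    _ ≤ |s| := by rw [one_mul]; exact h1

/-- Symmetry: combinations of distinct basis vectors. -/
theorem norm_sum_sg_le {S : Finset ℕ} {J : ℕ → ℕ} (hJ : Set.InjOn J S) (b : ℕ → ℝ) {C : ℝ}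
    (h : ∀ i, ∀ A ⊆ S, A.card ≤ Q.L i → (2 ^ i / Q.L i) * ∑ k ∈ A, |b k| ≤ C) :
    ‖∑ k ∈ S, NN.sg Q (J k) (b k)‖ ≤ C := by
  classical
  refine norm_le_of Q fun q => ?_
  obtain ⟨⟨i, A'⟩, hA'⟩ := q
  simp only at hA'
  let A := S.filter fun k => J k ∈ A'
  have hA : A ⊆ S := Finset.filter_subset _ _
  have hcard : A.card ≤ Q.L i := by
    refine le_trans ?_ hA'
    refine Finset.card_le_card_of_injOn J ?_ (hJ.mono (by exact_mod_cast hA))
    intro k hk
    have := (Finset.mem_filter.mp (Finset.mem_coe.mp hk)).2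
    exact_mod_cast this
  refine le_trans ?_ (h i A hA hcard)
  unfold avg
  refine mul_le_mul_of_nonneg_left ?_ (coef_pos Q _).le
  have hco : ∀ r, (∑ k ∈ S, NN.sg Q (J k) (b k)).co r = ∑ k ∈ S, if J k = r then b k else 0 := by
    intro r
    rw [← NN.coHom_apply, map_sum]
    refine Finset.sum_congr rfl fun k _ => ?_
    rw [NN.coHom_apply, NN.co_sg]
  calc ∑ r ∈ A', |(∑ k ∈ S, NN.sg Q (J k) (b k)).co r|
      ≤ ∑ r ∈ A', ∑ k ∈ S, (if J k = r then |b k| else 0) := by
        refine Finset.sum_le_sum fun r _ => ?_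
        rw [hco]
        refine (Finset.abs_sum_le_sum_abs _ _).trans (le_of_eq ?_)
        refine Finset.sum_congr rfl fun k _ => ?_
        split_ifs <;> simp
    _ = ∑ k ∈ S, ∑ r ∈ A', (if J k = r then |b k| else 0) := Finset.sum_comm
    _ = ∑ k ∈ S, (if J k ∈ A' then |b k| else 0) := by
        refine Finset.sum_congr rfl fun k _ => ?_
        rw [Finset.sum_ite_eq]
    _ = ∑ k ∈ A, |b k| := by rw [Finset.sum_filter]

end Run7.h376
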