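import Pool.Agent.Run7.h376.Gram
import Pool.Agent.Run7.h376.NormN

/-!
# The subgroup of relations is not dense
-/

set_option autoImplicit false

namespace Run7.h376

open Filter Topology Metric Finset

variable (Q : LSeq)

/-- The relations. -/
noncomputable def vv (u : ℕ → NN Q) (nn : ℕ → ℕ) (k : ℕ) : NN Q :=
  u k - NN.sg Q (k + 1) ((1 / 2) ^ (nn k))

theorem sum_succ_le_norm (b : NN Q) (i : ℕ) (A : Finset ℕ) (hA : A.card ≤ Q.L i) :
    ∑ k ∈ A, |b.co (k + 1)| ≤ (Q.L i / 2 ^ i) * ‖b‖ := by
  classical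
  have h := sum_le_norm Q b i (A.image Nat.succ) (Finset.card_image_le.trans hA)
  rwa [Finset.sum_image (fun x _ y _ h => Nat.succ_injective h)] at h

theorem nontriv (u : ℕ → NN Q) (nn : ℕ → ℕ) (δ : ℕ → ℝ) (hδ : ∀ n, 0 < δ n)
    (hδL : ∀ n, δ n * Q.L n ≤ (1 / 8) * (1 / 2) ^ (n + 1))
    (hsupp : ∀ k j, k < j → (u k).co j = 0) (hu : ∀ k, nn k ≠ 0 → ‖u k‖ < δ (nn k))
    (M : ℕ) (m : ℕ → ℤ) (d : NN Q) (hdm : d = ∑ k ∈ range M, m k • vv Q u nn k)
    (hd : ‖d‖ < 1 / 2) : |d.co 0| ≤ 1 / 8 := by
  classical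
  have hco : ∀ r, d.co r = ∑ k ∈ range M, (m k : ℝ) * (vv Q u nn k).co r := by
    intro r
    rw [hdm, ← NN.coHom_apply, map_sum]
    refine Finset.sum_congr rfl fun k _ => ?_
    rw [map_zsmul, NN.coHom_apply, zsmul_eq_mul]
  have hvco : ∀ k r, (vv Q u nn k).co r = (u k).co r - if k + 1 = r then (1 / 2) ^ (nn k) else 0 := by
    intro k r
    unfold vv
    rw [NN.co_sub, NN.co_sg]
  -- the coordinate identity
  have hE : ∀ j k, j ≤ k → k < M → |(m k : ℝ)| * (1 / 2) ^ (nn k) ≤
      |d.co (k + 1)| + ∑ l ∈ Ico (j + 1) M, |(m l : ℝ)| * |(u l).co (k + 1)| := by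
    intro j k hjk hkM
    have h1 : d.co (k + 1) = ∑ l ∈ range M, (m l : ℝ) * (u l).co (k + 1) -
        (m k : ℝ) * (1 / 2) ^ (nn k) := by
      rw [hco]
      simp_rw [hvco, mul_sub]
      rw [Finset.sum_sub_distrib]
      congr 1
      rw [Finset.sum_eq_single k]
      · rw [if_pos rfl]
      · intro l _ hl
        rw [if_neg (by omega), mul_zero]
      · intro h; exact absurd (mem_range.mpr hkM) h
    have h2 : ∑ l ∈ range M, (m l : ℝ) * (u l).co (k + 1) =
        ∑ l ∈ Ico (j + 1) M, (m l : ℝ) * (u l).co (k + 1) := by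
      symm
      refine Finset.sum_subset ?_ ?_
      · intro l hl
        rw [mem_Ico] at hl
        exact mem_range.mpr hl.2
      · intro l hl hl2
        rw [mem_range] at hl
        have : l < k + 1 := by
          by_contra h
          exact hl2 (mem_Ico.mpr ⟨by omega, hl⟩)
        rw [hsupp l _ this, mul_zero]
    have h3 : (m k : ℝ) * (1 / 2) ^ (nn k) =
        ∑ l ∈ Ico (j + 1) M, (m l : ℝ) * (u l).co (k + 1) - d.co (k + 1) := by
      rw [h1, h2]; ring
    calc |(m k : ℝ)| * (1 / 2) ^ (nn k) = |(m k : ℝ) * (1 / 2) ^ (nn k)| := by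
          rw [abs_mul, abs_of_pos (by positivity : (0 : ℝ) < (1 / 2) ^ (nn k))]
      _ = |∑ l ∈ Ico (j + 1) M, (m l : ℝ) * (u l).co (k + 1) - d.co (k + 1)| := by rw [h3]
      _ ≤ |∑ l ∈ Ico (j + 1) M, (m l : ℝ) * (u l).co (k + 1)| + |d.co (k + 1)| := abs_sub _ _
      _ ≤ ∑ l ∈ Ico (j + 1) M, |(m l : ℝ) * (u l).co (k + 1)| + |d.co (k + 1)| := by
          gcongr
          exact Finset.abs_sum_le_sum_abs _ _
      _ = _ := by simp_rw [abs_mul]; ring
  -- downward induction
  have key : ∀ i, i ≤ M → (∀ k, M - i ≤ k → k < M → nn k = 0 → m k = 0) ∧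
      ∑ k ∈ Ico (M - i) M, |(m k : ℝ)| * δ (nn k) ≤ 1 / 8 := by
    intro i
    induction i with
    | zero =>
      intro _
      refine ⟨fun k h1 h2 => by omega, ?_⟩
      simp
    | succ i ih =>
      intro hi
      obtain ⟨ih1, ih2⟩ := ih (by omega)
      obtain ⟨j, hj⟩ : ∃ j, j = M - (i + 1) := ⟨_, rfl⟩
      have hj1 : M - i = j + 1 := by omega
      rw [← hj]
      rw [hj1] at ih1 ih2
      have hR : ∀ (i : ℕ) (R : Finset ℕ), R ⊆ Ico j M → R.card ≤ Q.L i →
          ∑ k ∈ R, |(m k : ℝ)| * (1 / 2) ^ (nn k) ≤ (Q.L i / 2 ^ i) * (‖d‖ + 1 / 8) := by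
        intro i R hRs hRc
        have hL : (0 : ℝ) < Q.L i / 2 ^ i := by
          have := L_pos Q i; positivity
        calc ∑ k ∈ R, |(m k : ℝ)| * (1 / 2) ^ (nn k)
            ≤ ∑ k ∈ R, (|d.co (k + 1)| +
              ∑ l ∈ Ico (j + 1) M, |(m l : ℝ)| * |(u l).co (k + 1)|) := by
              refine Finset.sum_le_sum fun k hk => ?_
              have := mem_Ico.mp (hRs hk)
              exact hE j k this.1 this.2
          _ = ∑ k ∈ R, |d.co (k + 1)| +
              ∑ l ∈ Ico (j + 1) M, |(m l : ℝ)| * ∑ k ∈ R, |(u l).co (k + 1)| := by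
              rw [Finset.sum_add_distrib]
              congr 1
              rw [Finset.sum_comm]
              refine Finset.sum_congr rfl fun l _ => ?_
              rw [Finset.mul_sum]
          _ ≤ (Q.L i / 2 ^ i) * ‖d‖ +
              ∑ l ∈ Ico (j + 1) M, (Q.L i / 2 ^ i) * (|(m l : ℝ)| * δ (nn l)) := by
              refine add_le_add (sum_succ_le_norm Q d i R hRc) (Finset.sum_le_sum fun l hl => ?_)
              rw [mem_Ico] at hl
              by_cases hm : m l = 0
              · simp [hm]
              · have hn : nn l ≠ 0 := fun h => hm (ih1 l hl.1 hl.2 h)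
                have h1 := sum_succ_le_norm Q (u l) i R hRc
                have h2 := hu l hn
                calc |(m l : ℝ)| * ∑ k ∈ R, |(u l).co (k + 1)|
                    ≤ |(m l : ℝ)| * ((Q.L i / 2 ^ i) * δ (nn l)) := by
                      refine mul_le_mul_of_nonneg_left (h1.trans ?_) (abs_nonneg _)
                      exact mul_le_mul_of_nonneg_left h2.le hL.le
                  _ = _ := by ring
          _ = (Q.L i / 2 ^ i) * (‖d‖ + ∑ l ∈ Ico (j + 1) M, |(m l : ℝ)| * δ (nn l)) := by
              rw [← Finset.mul_sum]; ring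
          _ ≤ (Q.L i / 2 ^ i) * (‖d‖ + 1 / 8) := by
              gcongr
      have hzero : ∀ k, j ≤ k → k < M → nn k = 0 → m k = 0 := by
        intro k hk1 hk2 hk3
        rcases Nat.eq_or_lt_of_le hk1 with h | h
        · subst h
          have h1 := hR 0 {j} (by
            intro x hx
            rw [Finset.mem_singleton] at hx
            rw [hx, mem_Ico]; exact ⟨le_rfl, hk2⟩) (by simp [Q.zero])
          rw [Finset.sum_singleton, hk3, Q.zero] at h1
          simp only [pow_zero, mul_one, Nat.cast_one, div_one, one_mul] at h1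
          have h2 : |(m j : ℝ)| < 1 := by linarith
          have h3 : |m j| < 1 := by exact_mod_cast h2
          exact Int.abs_lt_one_iff.mp h3
        · exact ih1 k h hk2 hk3
      refine ⟨hzero, ?_⟩
      have hlev : ∀ n, ∑ k ∈ (Ico j M).filter (fun k => nn k = n), |(m k : ℝ)| * δ (nn k) ≤
          (1 / 8) * (1 / 2) ^ (n + 1) := by
        intro n
        let R := (Ico j M).filter fun k => nn k = n ∧ m k ≠ 0
        have hRs : R ⊆ Ico j M := Finset.filter_subset _ _
        have hLp := L_pos Q n
        have hbig : ∀ R' ⊆ R, (R'.card : ℝ) * (1 / 2) ^ n ≤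
            ∑ k ∈ R', |(m k : ℝ)| * (1 / 2) ^ (nn k) := by
          intro R' hR'
          rw [← nsmul_eq_mul]
          refine Finset.card_nsmul_le_sum _ _ _ fun k hk => ?_
          have := (Finset.mem_filter.mp (hR' hk)).2
          rw [this.1]
          have h1 : (1 : ℝ) ≤ |(m k : ℝ)| := by
            have := Int.one_le_abs this.2
            exact_mod_cast this
          have h2 : (0 : ℝ) < (1 / 2) ^ n := by positivity
          nlinarith
        have hcard : R.card ≤ Q.L n := by
          by_contra hcon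
          push Not at hcon
          obtain ⟨R', hR', hc⟩ := Finset.exists_subset_card_eq hcon.le
          have h1 := hbig R' hR'
          have h2 := hR n R' (hR'.trans hRs) hc.le
          rw [hc] at h1
          have h3 : (Q.L n : ℝ) * (1 / 2) ^ n = Q.L n / 2 ^ n := by
            rw [one_div, inv_pow]; rfl
          rw [h3] at h1
          have h4 : (0 : ℝ) < Q.L n / 2 ^ n := by positivity
          nlinarith
        have h5 := hR n R hRs hcard
        have h6 : ∑ k ∈ R, |(m k : ℝ)| * (1 / 2) ^ (nn k) = (∑ k ∈ R, |(m k : ℝ)|) * (1 / 2) ^ n := by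
          rw [Finset.sum_mul]
          refine Finset.sum_congr rfl fun k hk => ?_
          rw [(Finset.mem_filter.mp hk).2.1]
        have h7 : ∑ k ∈ R, |(m k : ℝ)| ≤ Q.L n := by
          rw [h6] at h5
          have h8 : (0 : ℝ) < (1 / 2) ^ n := by positivity
          have h9 : (Q.L n : ℝ) / 2 ^ n * (‖d‖ + 1 / 8) ≤ Q.L n * (1 / 2) ^ n := by
            have h3 : (Q.L n : ℝ) / 2 ^ n = Q.L n * (1 / 2) ^ n := by
              rw [one_div, inv_pow]; rfl
            rw [h3]
            have : 0 ≤ (Q.L n : ℝ) * (1 / 2) ^ n := by positivity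
            nlinarith
          exact le_of_mul_le_mul_right (h5.trans h9) h8
        calc ∑ k ∈ (Ico j M).filter (fun k => nn k = n), |(m k : ℝ)| * δ (nn k)
            = ∑ k ∈ R, |(m k : ℝ)| * δ (nn k) := by
              symm
              refine Finset.sum_subset ?_ ?_
              · intro k hk
                have := Finset.mem_filter.mp hk
                exact Finset.mem_filter.mpr ⟨this.1, this.2.1⟩
              · intro k hk hk2
                have h1 := Finset.mem_filter.mp hk
                have : m k = 0 := by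
                  by_contra h
                  exact hk2 (Finset.mem_filter.mpr ⟨h1.1, h1.2, h⟩)
                simp [this]
          _ = (∑ k ∈ R, |(m k : ℝ)|) * δ n := by
              rw [Finset.sum_mul]
              refine Finset.sum_congr rfl fun k hk => ?_
              rw [(Finset.mem_filter.mp hk).2.1]
          _ ≤ Q.L n * δ n := mul_le_mul_of_nonneg_right h7 (hδ n).le
          _ = δ n * Q.L n := mul_comm _ _
          _ ≤ _ := hδL n
      calc ∑ k ∈ Ico j M, |(m k : ℝ)| * δ (nn k)
          = ∑ n ∈ (Ico j M).image nn, ∑ k ∈ (Ico j M).filter (fun k => nn k = n),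
              |(m k : ℝ)| * δ (nn k) := by
            symm
            exact Finset.sum_fiberwise_of_maps_to
              (fun k hk => Finset.mem_image_of_mem nn hk) _
        _ ≤ ∑ n ∈ (Ico j M).image nn, (1 / 8) * (1 / 2 : ℝ) ^ (n + 1) :=
            Finset.sum_le_sum fun n _ => hlev n
        _ = (1 / 8) * ∑ n ∈ (Ico j M).image nn, (1 / 2 : ℝ) ^ (n + 1) := by
            rw [Finset.mul_sum]
        _ ≤ (1 / 8) * 1 := by
            have := geo_fin ((Ico j M).image nn)
            linarith
        _ = 1 / 8 := by norm_num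
  obtain ⟨k1, k2⟩ := key M le_rfl
  rw [Nat.sub_self] at k1 k2
  calc |d.co 0| = |∑ l ∈ range M, (m l : ℝ) * (u l).co 0| := by
        rw [hco]
        congr 1
        refine Finset.sum_congr rfl fun l _ => ?_
        rw [hvco, if_neg (by omega), sub_zero]
    _ ≤ ∑ l ∈ range M, |(m l : ℝ) * (u l).co 0| := Finset.abs_sum_le_sum_abs _ _
    _ ≤ ∑ l ∈ range M, |(m l : ℝ)| * δ (nn l) := by
        refine Finset.sum_le_sum fun l hl => ?_
        rw [abs_mul]
        by_cases hm : m l = 0
        · simp [hm]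
        · have hn : nn l ≠ 0 := fun h => hm (k1 l (Nat.zero_le _) (mem_range.mp hl) h)
          refine mul_le_mul_of_nonneg_left ?_ (abs_nonneg _)
          exact (co_le_norm Q (u l) 0).trans (hu l hn).le
    _ ≤ 1 / 8 := by
        rw [Finset.range_eq_Ico]; exact k2

end Run7.h376
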