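import Pool.Agent.Run7.h376.Dither
import Pool.Agent.Run7.h376.NormN
import Pool.Agent.Run7.h376.Gram

/-!
# Sums of one-parameter families of simple functions in `L¹([0,1],K)`
-/

set_option autoImplicit false

namespace Run7.h376

open Filter Topology Metric MeasureTheory

section
variable {K : Type} [NormedAddCommGroup K]

/-- Simple functions as elements of `L¹`. -/
noncomputable def toL : SimpleFunc ℝ K →+ Lp K 1 unitMeas where
  toFun g := (g.memLp_of_isFiniteMeasure 1 unitMeas).toLp g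
  map_zero' := by
    rw [← MemLp.toLp_zero (MemLp.zero (p := 1) (μ := unitMeas) (ε := K))]
    rfl
  map_add' g g' := by
    rw [← MemLp.toLp_add]
    rfl

theorem norm_toL (g : SimpleFunc ℝ K) : ‖toL g‖ = ∫ t, ‖g t‖ ∂unitMeas := by
  show ‖(g.memLp_of_isFiniteMeasure 1 unitMeas).toLp g‖ = _
  rw [Lp.norm_toLp, eLpNorm_one_eq_lintegral_enorm,
    ← integral_norm_eq_lintegral_enorm g.aestronglyMeasurable]

theorem norm_toL_le {g : SimpleFunc ℝ K} {C : ℝ} (h : ∀ t, ‖g t‖ ≤ C) : ‖toL g‖ ≤ C := by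
  rw [norm_toL]
  have hint : Integrable (fun t => ‖g t‖) unitMeas :=
    (SimpleFunc.integrable_of_isFiniteMeasure g).norm
  calc ∫ t, ‖g t‖ ∂unitMeas ≤ ∫ t, C ∂unitMeas := integral_mono hint (integrable_const _) h
    _ = C := by simp

theorem norm_toL_le_meas (hK : ∀ κ : K, ‖κ‖ ≤ 1) {g : SimpleFunc ℝ K} {B : Set ℝ}
    (hB : MeasurableSet B) (h : ∀ t, t ∉ B → g t = 0) : ‖toL g‖ ≤ unitMeas.real B := by
  classical
  rw [norm_toL]
  have hint : Integrable (fun t => ‖g t‖) unitMeas :=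
    (SimpleFunc.integrable_of_isFiniteMeasure g).norm
  have hint2 : Integrable (B.indicator fun _ => (1 : ℝ)) unitMeas :=
    (integrable_const _).indicator hB
  calc ∫ t, ‖g t‖ ∂unitMeas ≤ ∫ t, B.indicator (fun _ => (1 : ℝ)) t ∂unitMeas := by
        refine integral_mono hint hint2 fun t => ?_
        by_cases ht : t ∈ B
        · simp only [Set.indicator_of_mem ht]; exact hK _
        · simp only [Set.indicator_of_notMem ht, h t ht, norm_zero]; exact le_rfl
    _ = unitMeas.real B := by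
        rw [integral_indicator hB]; simp

/-- Evaluation of simple functions. -/
def evalS (t : ℝ) : SimpleFunc ℝ K →+ K where
  toFun g := g t
  map_zero' := rfl
  map_add' _ _ := rfl

theorem sum_apply {S : Finset ℕ} (F : ℕ → SimpleFunc ℝ K) (t : ℝ) :
    (∑ k ∈ S, F k) t = ∑ k ∈ S, F k t :=
  map_sum (evalS t) F S

variable (e : ℕ → ℝ →+ K)

/-- The multiple `a` of the good part. -/
noncomputable def Fg (V : SimpleFunc ℝ (ℕ × ℝ)) (a : ℝ) : SimpleFunc ℝ K :=
  V.map fun q => e q.1 a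

/-- The multiple `a` of the bad part. -/
noncomputable def Fb (V : SimpleFunc ℝ (ℕ × ℝ)) (a : ℝ) : SimpleFunc ℝ K :=
  V.map fun q => e q.1 (a * (q.2 - 1))

/-- The one-parameter family of simple functions given by `V`. -/
noncomputable def FF (V : SimpleFunc ℝ (ℕ × ℝ)) : ℝ →+ SimpleFunc ℝ K where
  toFun a := V.map fun q => e q.1 (a * q.2)
  map_zero' := by
    ext t; simp [SimpleFunc.map_apply]
  map_add' a b := by
    ext t; simp [SimpleFunc.map_apply, add_mul]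

theorem FF_apply (V : SimpleFunc ℝ (ℕ × ℝ)) (a t : ℝ) :
    FF e V a t = e (V t).1 (a * (V t).2) := rfl

theorem Fg_apply (V : SimpleFunc ℝ (ℕ × ℝ)) (a t : ℝ) : Fg e V a t = e (V t).1 a := rfl

theorem Fb_apply (V : SimpleFunc ℝ (ℕ × ℝ)) (a t : ℝ) :
    Fb e V a t = e (V t).1 (a * ((V t).2 - 1)) := rfl

theorem FF_eq (V : SimpleFunc ℝ (ℕ × ℝ)) (a : ℝ) : FF e V a = Fg e V a + Fb e V a := by
  ext t
  rw [SimpleFunc.add_apply, FF_apply, Fg_apply, Fb_apply, ← map_add]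
  congr 1; ring

end

/-- The sequences with uniformly small averages. -/
def KK (Q : LSeq) (a : ℕ → ℝ) : Prop :=
  ∀ i, ∀ A : Finset ℕ, A.card ≤ Q.L i → ∑ k ∈ A, |a k| ≤ (1 / 4) ^ i * Q.L i

theorem KK.avg {Q : LSeq} {a : ℕ → ℝ} (ha : KK Q a) {η : ℝ} (i : ℕ) {A : Finset ℕ}
    (hA : A.card ≤ Q.L i) (h : ∀ k ∈ A, |a k| ≤ η) (hη : 0 ≤ η) :
    (2 ^ i / Q.L i) * ∑ k ∈ A, |a k| ≤ √η := by
  have hL := L_pos Q i
  set x := (2 ^ i / Q.L i) * ∑ k ∈ A, |a k| with hx
  have hs0 : 0 ≤ ∑ k ∈ A, |a k| := Finset.sum_nonneg fun _ _ => abs_nonneg _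
  have hx0 : 0 ≤ x := mul_nonneg (coef_pos Q i).le hs0
  have h1 : x ≤ 2 ^ i * η := by
    have h2 : ∑ k ∈ A, |a k| ≤ Q.L i * η := by
      calc ∑ k ∈ A, |a k| ≤ ∑ k ∈ A, η := Finset.sum_le_sum h
        _ = A.card * η := by rw [Finset.sum_const, nsmul_eq_mul]
        _ ≤ Q.L i * η := by
            refine mul_le_mul_of_nonneg_right ?_ hη
            exact_mod_cast hA
    calc x ≤ (2 ^ i / Q.L i) * (Q.L i * η) := mul_le_mul_of_nonneg_left h2 (coef_pos Q i).le
      _ = 2 ^ i * η := by field_simp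
  have h2 : x ≤ (1 / 2) ^ i := by
    calc x ≤ (2 ^ i / Q.L i) * ((1 / 4) ^ i * Q.L i) :=
          mul_le_mul_of_nonneg_left (ha i A hA) (coef_pos Q i).le
      _ = 2 ^ i * (1 / 4) ^ i := by field_simp
      _ = (1 / 2) ^ i := by rw [← mul_pow]; norm_num
  refine Real.le_sqrt_of_sq_le ?_
  calc x ^ 2 = x * x := sq x
    _ ≤ (2 ^ i * η) * (1 / 2) ^ i := mul_le_mul h1 h2 hx0 (by positivity)
    _ = (2 * (1 / 2)) ^ i * η := by rw [mul_pow]; ring
    _ = η := by norm_num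

theorem KK.card {Q : LSeq} {a : ℕ → ℝ} (ha : KK Q a) (i : ℕ) {A : Finset ℕ}
    (h : ∀ k ∈ A, (1 / 4) ^ i < |a k|) : A.card ≤ Q.L i := by
  by_contra hcon
  push Not at hcon
  obtain ⟨A', hA', hc⟩ := Finset.exists_subset_card_eq hcon.le
  have h1 := ha i A' hc.le
  have hL := L_pos Q i
  have hne : A'.Nonempty := by
    rw [← Finset.card_pos, hc]
    exact_mod_cast hL
  have h2 : ∑ k ∈ A', (1 / 4 : ℝ) ^ i < ∑ k ∈ A', |a k| :=
    Finset.sum_lt_sum_of_nonempty hne fun k hk => h k (hA' hk)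
  rw [Finset.sum_const, nsmul_eq_mul, hc] at h2
  linarith

theorem KK.neg {Q : LSeq} {a : ℕ → ℝ} (ha : KK Q a) : KK Q fun k => -a k := by
  intro i A hA
  simpa using ha i A hA

end Run7.h376
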